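import Mathlib

set_option autoImplicit false

/-!
# Pruned game trees, branches, child functions and reachability games
-/

namespace Pool.Agent.Helper64.BD

/-- A pruned game tree, given by its type of positions, their lengths and their parents. -/
structure GTree where
  Pos : Type
  len : Pos → ℕ
  par : Pos → Pos
  len_par : ∀ p, len (par p) = len p - 1
  par_root : ∀ p, len p = 0 → par p = p
  child : ∀ p, ∃ q, par q = p ∧ len q = len p + 1

/-- An infinite branch of a tree. -/
structure Branch (T : GTree) where
  x : ℕ → T.Pos
  len : ∀ n, T.len (x n) = n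
  par : ∀ n, T.par (x (n + 1)) = x n

/-- A child function: it selects a child of every position. -/
structure Strat (T : GTree) where
  s : T.Pos → T.Pos
  par : ∀ p, T.par (s p) = p
  len : ∀ p, T.len (s p) = T.len p + 1

namespace Strat

variable {T : GTree}

theorem ext' {s t : Strat T} (h : s.s = t.s) : s = t := by
  cases s; cases t; cases h; rfl

end Strat

/-- A default child function. -/
noncomputable def dflt (T : GTree) : Strat T where
  s := fun p => (T.child p).choose
  par := fun p => (T.child p).choose_spec.1
  len := fun p => (T.child p).choose_spec.2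

namespace Branch

variable {T : GTree}

theorem ext' {x y : Branch T} (h : x.x = y.x) : x = y := by
  cases x; cases y; cases h; rfl

end Branch

namespace GTree

variable (T : GTree)

/-- The ancestor of `p` of length `n` (or `p` itself if it is not longer than `n`). -/
def anc (n : ℕ) (p : T.Pos) : T.Pos := T.par^[T.len p - n] p

variable {T}

theorem anc_of_le {n : ℕ} {p : T.Pos} (h : T.len p ≤ n) : T.anc n p = p := by
  unfold anc
  rw [Nat.sub_eq_zero_of_le h]; rfl

@[simp] theorem anc_self (p : T.Pos) : T.anc (T.len p) p = p := anc_of_le le_rfl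

theorem anc_par {n : ℕ} {p : T.Pos} (h : n < T.len p) : T.anc n (T.par p) = T.anc n p := by
  unfold anc
  rw [T.len_par]
  have h1 : T.len p - n = (T.len p - 1 - n) + 1 := by omega
  rw [h1, Function.iterate_succ_apply]

theorem anc_child {n : ℕ} {p q : T.Pos} (h : T.par q = p) (hl : T.len q = T.len p + 1)
    (hn : n ≤ T.len p) : T.anc n q = T.anc n p := by
  rw [← h, anc_par (by omega)]

theorem len_anc {n : ℕ} {p : T.Pos} (h : n ≤ T.len p) : T.len (T.anc n p) = n := by
  obtain ⟨k, hk⟩ : ∃ k, T.len p = n + k := ⟨T.len p - n, by omega⟩
  induction k generalizing p with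
  | zero => rw [anc_of_le (by omega)]; omega
  | succ k ih =>
    rw [← anc_par (by omega)]
    exact ih (by rw [T.len_par]; omega) (by rw [T.len_par]; omega)

theorem anc_anc {m n : ℕ} {p : T.Pos} (h : m ≤ n) : T.anc m (T.anc n p) = T.anc m p := by
  by_cases hn : T.len p ≤ n
  · rw [anc_of_le hn]
  · push Not at hn
    obtain ⟨k, hk⟩ : ∃ k, T.len p = n + k := ⟨T.len p - n, by omega⟩
    induction k generalizing p with
    | zero => omega
    | succ k ih =>
      by_cases hk0 : k = 0
      · subst hk0
        have : T.anc n p = T.par p := by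
          rw [← anc_par hn, anc_of_le]
          rw [T.len_par]; omega
        rw [this, anc_par (by omega)]
      · rw [← anc_par hn, ← anc_par (by omega : m < T.len p)]
        exact ih (by rw [T.len_par]; omega) (by rw [T.len_par]; omega)

theorem par_anc {n : ℕ} {p : T.Pos} (h : n + 1 ≤ T.len p) :
    T.par (T.anc (n + 1) p) = T.anc n p := by
  have h1 : T.anc n (T.anc (n + 1) p) = T.anc n p := anc_anc (by omega)
  have h2 : T.len (T.anc (n + 1) p) = n + 1 := len_anc h
  have h3 : T.anc n (T.par (T.anc (n + 1) p)) = T.anc n (T.anc (n + 1) p) :=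
    anc_par (by omega)
  rw [← h1, ← h3]
  exact (anc_of_le (by rw [T.len_par, h2]; omega)).symm

end GTree

namespace Branch

variable {T : GTree}

theorem anc (x : Branch T) {n m : ℕ} (h : n ≤ m) : T.anc n (x.x m) = x.x n := by
  obtain ⟨k, rfl⟩ := Nat.exists_eq_add_of_le h
  induction k with
  | zero => rw [GTree.anc_of_le]; · rfl
            rw [x.len]; omega
  | succ k ih =>
    rw [← GTree.anc_par (by rw [x.len]; omega)]
    have : n + (k + 1) = (n + k) + 1 := by omega
    rw [this, x.par]
    exact ih (by omega)

end Branch

/-- The branch `x` follows the child function `s` at all positions of length `n ≥ k` at which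
player `b` moves (those with `Nat.bodd n = b`). -/
def Cons {T : GTree} (b : Bool) (s : Strat T) (k : ℕ) (x : Branch T) : Prop :=
  ∀ n, k ≤ n → n.bodd = b → x.x (n + 1) = s.s (x.x n)

theorem Cons.mono {T : GTree} {b : Bool} {s : Strat T} {k l : ℕ} {x : Branch T}
    (h : Cons b s k x) (hkl : k ≤ l) : Cons b s l x := fun n hn => h n (hkl.trans hn)

/-- There is a branch through `q` which follows `s` from `q` on. -/
theorem exists_branch {T : GTree} (q : T.Pos) (s : Strat T) :
    ∃ x : Branch T, x.x (T.len q) = q ∧ ∀ n, T.len q ≤ n → x.x (n + 1) = s.s (x.x n) := by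
  have hlen : ∀ k, T.len (s.s^[k] q) = T.len q + k := by
    intro k
    induction k with
    | zero => rfl
    | succ k ih => rw [Function.iterate_succ_apply', s.len, ih]; omega
  let x : ℕ → T.Pos := fun n => if n ≤ T.len q then T.anc n q else s.s^[n - T.len q] q
  have hx : ∀ n, T.len q ≤ n → x n = s.s^[n - T.len q] q := by
    intro n hn
    by_cases h : n ≤ T.len q
    · have : n = T.len q := le_antisymm h hn
      subst this
      simp [x]
    · simp [x, h]
  refine ⟨⟨x, ?_, ?_⟩, ?_, ?_⟩
  · intro n
    by_cases h : n ≤ T.len q
    · simp only [x, h, if_true]; exact GTree.len_anc h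
    · simp only [x, h, if_false]; rw [hlen]; omega
  · intro n
    by_cases h : n + 1 ≤ T.len q
    · have h' : n ≤ T.len q := by omega
      simp only [x, h, h', if_true]
      exact GTree.par_anc h
    · rw [hx (n + 1) (by omega), hx n (by omega)]
      have : n + 1 - T.len q = (n - T.len q) + 1 := by omega
      rw [this, Function.iterate_succ_apply', s.par]
  · simp [x]
  · intro n hn
    show x (n + 1) = s.s (x n)
    rw [hx (n + 1) (by omega), hx n (by omega)]
    have : n + 1 - T.len q = (n - T.len q) + 1 := by omega
    rw [this, Function.iterate_succ_apply']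

/-- Player `b` has a way to play from `q` on which surely reaches a position in `G`. -/
def CanReach {T : GTree} (b : Bool) (G : Set T.Pos) (q : T.Pos) : Prop :=
  ∃ s : Strat T, ∀ x : Branch T, x.x (T.len q) = q → Cons b s (T.len q) x →
    ∃ n, T.len q ≤ n ∧ x.x n ∈ G

/-- A way for `b` to reach `G` from `q`, if there is one. -/
noncomputable def reachStrat {T : GTree} (b : Bool) (G : Set T.Pos) (q : T.Pos) : Strat T :=
  open Classical in if h : CanReach b G q then h.choose else dflt T

theorem reachStrat_spec {T : GTree} {b : Bool} {G : Set T.Pos} {q : T.Pos}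
    (h : CanReach b G q) (x : Branch T) (hx : x.x (T.len q) = q)
    (hc : Cons b (reachStrat b G q) (T.len q) x) : ∃ n, T.len q ≤ n ∧ x.x n ∈ G := by
  unfold reachStrat at hc
  rw [dif_pos h] at hc
  exact h.choose_spec x hx hc

section reach

variable {T : GTree} {b : Bool} {G : Set T.Pos} {q : T.Pos}

theorem CanReach.of_mem (h : q ∈ G) : CanReach b G q :=
  ⟨dflt T, fun x hx _ => ⟨T.len q, le_rfl, by rw [hx]; exact h⟩⟩

theorem CanReach.of_child {c : T.Pos} (hc : T.par c = q) (hcl : T.len c = T.len q + 1)
    (hb : (T.len q).bodd = b) (h : CanReach b G c) : CanReach b G q := by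
  classical
  obtain ⟨s, hs⟩ := h
  let s' : Strat T :=
    { s := fun p => if p = q then c else s.s p
      par := by
        intro p
        by_cases hp : p = q
        · simp only [hp, if_true]; exact hc
        · simp only [hp, if_false]; exact s.par p
      len := by
        intro p
        by_cases hp : p = q
        · simp only [hp, if_true]; exact hcl
        · simp only [hp, if_false]; exact s.len p }
  refine ⟨s', fun x hx hcons => ?_⟩
  have h1 : x.x (T.len c) = c := by
    rw [hcl, hcons _ le_rfl hb, hx]
    simp [s']
  obtain ⟨n, hn, hnG⟩ := hs x h1 (by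
    intro n hn hnb
    rw [hcons n (by omega) hnb]
    have : x.x n ≠ q := by
      intro h
      have h2 := x.len n
      rw [h] at h2
      omega
    simp [s', this])
  exact ⟨n, by omega, hnG⟩

theorem CanReach.of_forall
    (h : ∀ c, T.par c = q → T.len c = T.len q + 1 → CanReach b G c) : CanReach b G q := by
  let s' : Strat T :=
    { s := fun p => (reachStrat b G (T.anc (T.len q + 1) p)).s p
      par := fun p => Strat.par _ p
      len := fun p => Strat.len _ p }
  refine ⟨s', fun x hx hcons => ?_⟩
  have hc1 : T.par (x.x (T.len q + 1)) = q := by rw [x.par, hx]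
  have hc2 : T.len (x.x (T.len q + 1)) = T.len q + 1 := x.len _
  obtain ⟨n, hn, hnG⟩ := reachStrat_spec (h _ hc1 hc2) x (by rw [hc2]) (by
    intro n hn hnb
    rw [hcons n (by omega) hnb]
    have h3 : T.anc (T.len q + 1) (x.x n) = x.x (T.len q + 1) := x.anc (by omega)
    simp only [s', h3])
  exact ⟨n, by omega, hnG⟩

/-- If `b` cannot reach `G` from `q` and it is the turn of `b`, no child is winning for `b`. -/
theorem not_canReach_child {c : T.Pos} (hc : T.par c = q) (hcl : T.len c = T.len q + 1)
    (hb : (T.len q).bodd = b) (h : ¬ CanReach b G q) : ¬ CanReach b G c :=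
  fun h' => h (CanReach.of_child hc hcl hb h')

/-- If `b` cannot reach `G` from `q`, there is a child from which this remains so. -/
theorem exists_not_canReach (h : ¬ CanReach b G q) :
    ∃ c, T.par c = q ∧ T.len c = T.len q + 1 ∧ ¬ CanReach b G c := by
  by_contra hcon
  push Not at hcon
  exact h (CanReach.of_forall hcon)

end reach

end Pool.Agent.Helper64.BD
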