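import Pool.Agent.Helper64.BD.Cover

set_option autoImplicit false

/-!
# Inverse limits of sequences of coverings
-/

namespace Pool.Agent.Helper64.BD

theorem invlim_exists (i0 : ℕ) : ∀ (X : ℕ → Type) (g : ∀ i, X (i + 1) → X i)
    (_ : ∀ i, i0 ≤ i → Function.Surjective (g i)) (q : X i0),
    ∃ p : ∀ i, X i, (∀ i, g i (p (i + 1)) = p i) ∧ p i0 = q := by
  induction i0 with
  | zero =>
    intro X g h q
    let p : ∀ i, X i := fun i => Nat.rec (motive := X) q
      (fun i pi => Function.surjInv (h i (Nat.zero_le _)) pi) i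
    exact ⟨p, fun i => Function.surjInv_eq (h i (Nat.zero_le _)) (p i), rfl⟩
  | succ i0 ih =>
    intro X g h q
    obtain ⟨p', hp', hq⟩ := ih (fun i => X (i + 1)) (fun i => g (i + 1))
      (fun i hi => h (i + 1) (by omega)) q
    refine ⟨fun i => match i with
      | 0 => g 0 (p' 0)
      | i + 1 => p' i, ?_, hq⟩
    intro i
    cases i with
    | zero => rfl
    | succ i => exact hp' i

theorem invlim_unique (i0 : ℕ) (X : ℕ → Type) (g : ∀ i, X (i + 1) → X i)
    (h : ∀ i, i0 ≤ i → Function.Injective (g i)) (p p' : ∀ i, X i)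
    (hp : ∀ i, g i (p (i + 1)) = p i) (hp' : ∀ i, g i (p' (i + 1)) = p' i)
    (he : p i0 = p' i0) : p = p' := by
  have up : ∀ j, p (i0 + j) = p' (i0 + j) := by
    intro j
    induction j with
    | zero => exact he
    | succ j ih =>
      apply h (i0 + j) (by omega)
      have h1 := hp (i0 + j)
      have h2 := hp' (i0 + j)
      exact h1.trans (ih.trans h2.symm)
  have down : ∀ j, ∀ i, i + j = i0 → p i = p' i := by
    intro j
    induction j with
    | zero => intro i hi; obtain rfl : i = i0 := by omega
              exact he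
    | succ j ih =>
      intro i hi
      rw [← hp i, ← hp' i, ih (i + 1) (by omega)]
  funext i
  by_cases hi : i ≤ i0
  · exact down (i0 - i) i (by omega)
  · have := up (i - i0)
    have h2 : i0 + (i - i0) = i := by omega
    rw [h2] at this
    exact this

section limit

variable (k : ℕ) (T : ℕ → GTree) (c : ∀ i, Cover (k + i) (T (i + 1)) (T i))

/-- Positions of the inverse limit. -/
abbrev LimPos : Type := {p : ∀ i, (T i).Pos // ∀ i, (c i).f (p (i + 1)) = p i}

variable {k T c}

theorem LimPos.len_eq (p : LimPos k T c) (i : ℕ) : (T i).len (p.1 i) = (T 0).len (p.1 0) := by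
  induction i with
  | zero => rfl
  | succ i ih => rw [← ih, ← p.2 i, (c i).len]

theorem LimPos.exists_lift (i0 : ℕ) (q : (T i0).Pos) (hq : (T i0).len q ≤ k + i0) :
    ∃ p : LimPos k T c, p.1 i0 = q := by
  obtain ⟨p, hp, hpq⟩ := invlim_exists i0 (fun i => {p : (T i).Pos // (T i).len p = (T i0).len q})
    (fun i p => ⟨(c i).f p.1, by rw [(c i).len]; exact p.2⟩)
    (by
      rintro i hi ⟨r, hr⟩
      obtain ⟨p, hp⟩ := (c i).surj r (by rw [hr]; omega)
      refine ⟨⟨p, ?_⟩, ?_⟩
      · rw [← (c i).len, hp, hr]
      · exact Subtype.ext hp) ⟨q, rfl⟩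
  refine ⟨⟨fun i => (p i).1, fun i => ?_⟩, ?_⟩
  · have := congrArg Subtype.val (hp i)
    exact this
  · have := congrArg Subtype.val hpq
    exact this

theorem LimPos.eq_of (i0 : ℕ) (p p' : LimPos k T c) (hq : (T i0).len (p.1 i0) ≤ k + i0)
    (he : p.1 i0 = p'.1 i0) : p = p' := by
  have hlen : ∀ i, (T i).len (p.1 i) = (T i0).len (p.1 i0) := fun i => by
    rw [LimPos.len_eq, LimPos.len_eq p i0]
  have hlen' : ∀ i, (T i).len (p'.1 i) = (T i0).len (p.1 i0) := fun i => by
    rw [LimPos.len_eq, he, LimPos.len_eq p' i0]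
  let n := (T i0).len (p.1 i0)
  have key := invlim_unique i0 (fun i => {q : (T i).Pos // (T i).len q = n})
    (fun i q => ⟨(c i).f q.1, by rw [(c i).len]; exact q.2⟩)
    (by
      rintro i hi ⟨r, hr⟩ ⟨r', hr'⟩ h
      apply Subtype.ext
      exact (c i).inj r r' (by rw [hr]; omega) (congrArg Subtype.val h))
    (fun i => ⟨p.1 i, hlen i⟩) (fun i => ⟨p'.1 i, hlen' i⟩)
    (fun i => Subtype.ext (p.2 i)) (fun i => Subtype.ext (p'.2 i)) (Subtype.ext he)
  apply Subtype.ext
  funext i
  exact congrArg Subtype.val (congrFun key i)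

variable (k T c)

/-- The inverse limit tree. -/
@[reducible] def limTree : GTree where
  Pos := LimPos k T c
  len := fun p => (T 0).len (p.1 0)
  par := fun p => ⟨fun i => (T i).par (p.1 i), fun i => by rw [(c i).par, p.2]⟩
  len_par := fun p => (T 0).len_par _
  par_root := fun p hp => by
    apply Subtype.ext
    funext i
    exact (T i).par_root _ (by rw [LimPos.len_eq]; exact hp)
  child := by
    intro p
    let i0 := (T 0).len (p.1 0) + 1
    obtain ⟨q, hq1, hq2⟩ := (T i0).child (p.1 i0)
    have hlq : (T i0).len q = i0 := by rw [hq2, LimPos.len_eq]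
    obtain ⟨r, hr⟩ := LimPos.exists_lift (c := c) i0 q (by omega)
    refine ⟨r, ?_, ?_⟩
    · apply LimPos.eq_of i0
      · show (T i0).len ((T i0).par (r.1 i0)) ≤ k + i0
        rw [(T i0).len_par, hr]; omega
      · show (T i0).par (r.1 i0) = p.1 i0
        rw [hr, hq1]
    · rw [← LimPos.len_eq r i0, hr, hq2, LimPos.len_eq]

/-- The projections of the inverse limit. -/
def limProj (i : ℕ) : Hom (limTree k T c) (T i) where
  f := fun p => p.1 i
  len := fun p => LimPos.len_eq p i
  par := fun _ => rfl

variable {k T c}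

/-- The unique position of the limit over a short position of `T i`. -/
noncomputable def liftPos (i : ℕ) (q : (T i).Pos) (hq : (T i).len q ≤ k + i) : LimPos k T c :=
  (LimPos.exists_lift (c := c) i q hq).choose

theorem liftPos_spec (i : ℕ) (q : (T i).Pos) (hq : (T i).len q ≤ k + i) :
    (liftPos (c := c) i q hq).1 i = q := (LimPos.exists_lift (c := c) i q hq).choose_spec

theorem liftPos_eq (i : ℕ) (p : LimPos k T c) (hq : (T i).len (p.1 i) ≤ k + i) :
    liftPos (c := c) i (p.1 i) hq = p :=
  LimPos.eq_of i _ _ (by rw [liftPos_spec]; exact hq) (liftPos_spec _ _ _)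

theorem len_liftPos (i : ℕ) (q : (T i).Pos) (hq : (T i).len q ≤ k + i) :
    (limTree k T c).len (liftPos (c := c) i q hq) = (T i).len q := by
  show (T 0).len _ = _
  rw [← LimPos.len_eq _ i, liftPos_spec]

/-- The restriction of a child function of the limit to the short positions of `T i`. -/
noncomputable def sRes (s : Strat (limTree k T c)) (i : ℕ) : Strat (T i) where
  s := fun p => open Classical in if h : (T i).len p < k + i then
    (s.s (liftPos (c := c) i p h.le)).1 i else (dflt (T i)).s p
  par := by
    intro p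
    by_cases h : (T i).len p < k + i
    · simp only [h, dite_true]
      have := congrArg (fun r : LimPos k T c => r.1 i) (s.par (liftPos (c := c) i p h.le))
      simp only [liftPos_spec] at this
      exact this
    · simp only [h, dite_false]; exact Strat.par _ p
  len := by
    intro p
    by_cases h : (T i).len p < k + i
    · simp only [h, dite_true]
      rw [LimPos.len_eq]
      have := s.len (liftPos (c := c) i p h.le)
      rw [len_liftPos] at this
      exact this
    · simp only [h, dite_false]; exact Strat.len _ p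

theorem sRes_apply (s : Strat (limTree k T c)) (i : ℕ) (p : LimPos k T c)
    (h : (T i).len (p.1 i) < k + i) : (sRes s i).s (p.1 i) = (s.s p).1 i := by
  show (open Classical in if h : (T i).len (p.1 i) < k + i then
    (s.s (liftPos (c := c) i (p.1 i) h.le)).1 i else (dflt (T i)).s (p.1 i)) = _
  rw [dif_pos h, liftPos_eq]

/-- The approximations to the transferred child functions. -/
noncomputable def sApp (b : Bool) (s : Strat (limTree k T c)) : ∀ (_ i : ℕ), Strat (T i)
  | 0, i => sRes s i
  | j + 1, i => (c i).φ b (sApp b s j (i + 1))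

theorem sApp_succ (b : Bool) (s : Strat (limTree k T c)) (j : ℕ) : ∀ (i : ℕ) (p : (T i).Pos),
    (T i).len p < k + i + j → (sApp b s (j + 1) i).s p = (sApp b s j i).s p := by
  induction j with
  | zero =>
    intro i p hp
    obtain ⟨P, hP⟩ := LimPos.exists_lift (c := c) i p (by omega)
    have h1 : (T (i + 1)).len (P.1 (i + 1)) = (T i).len p := by
      rw [← hP, LimPos.len_eq P (i + 1), LimPos.len_eq P i]
    show ((c i).φ b (sRes s (i + 1))).s p = (sRes s i).s p
    rw [← hP, sRes_apply s i P (by rw [hP]; omega), ← P.2 i, (c i).fix b _ _ (by rw [h1]; omega),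
      sRes_apply s (i + 1) P (by rw [h1]; omega), (s.s P).2 i]
  | succ j ih =>
    intro i p hp
    show ((c i).φ b (sApp b s (j + 1) (i + 1))).s p = ((c i).φ b (sApp b s j (i + 1))).s p
    apply (c i).lip b _ _ ((T i).len p) _ _ le_rfl
    intro q hq
    exact ih (i + 1) q (by omega)

theorem sApp_eq (b : Bool) (s : Strat (limTree k T c)) (i : ℕ) (p : (T i).Pos) (j l : ℕ)
    (h : (T i).len p < k + i + j) (hjl : j ≤ l) : (sApp b s l i).s p = (sApp b s j i).s p := by
  obtain ⟨m, rfl⟩ := Nat.exists_eq_add_of_le hjl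
  clear hjl
  induction m with
  | zero => rfl
  | succ m ih =>
    rw [← ih]
    exact sApp_succ b s (j + m) i p (by omega)

/-- The child function transferred to `T i`. -/
noncomputable def sLim (b : Bool) (s : Strat (limTree k T c)) (i : ℕ) : Strat (T i) where
  s := fun p => (sApp b s ((T i).len p + 1) i).s p
  par := fun p => Strat.par _ p
  len := fun p => Strat.len _ p

theorem sLim_eq (b : Bool) (s : Strat (limTree k T c)) (i : ℕ) (p : (T i).Pos) (j : ℕ)
    (h : (T i).len p < k + i + j) : (sLim b s i).s p = (sApp b s j i).s p := by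
  show (sApp b s ((T i).len p + 1) i).s p = _
  rcases le_total j ((T i).len p + 1) with hj | hj
  · exact sApp_eq b s i p j _ h hj
  · exact (sApp_eq b s i p _ _ (by omega) hj).symm

theorem sLim_eq_sRes (b : Bool) (s : Strat (limTree k T c)) (i : ℕ) (p : (T i).Pos)
    (h : (T i).len p < k + i) : (sLim b s i).s p = (sRes s i).s p :=
  sLim_eq b s i p 0 (by omega)

theorem φ_sLim (b : Bool) (s : Strat (limTree k T c)) (i : ℕ) :
    (c i).φ b (sLim b s (i + 1)) = sLim b s i := by
  apply Strat.ext'
  funext p
  rw [sLim_eq b s i p ((T i).len p + 2) (by omega)]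
  show _ = ((c i).φ b (sApp b s ((T i).len p + 1) (i + 1))).s p
  apply (c i).lip b _ _ ((T i).len p) _ _ le_rfl
  intro q hq
  exact sLim_eq b s (i + 1) q _ (by omega)

theorem sApp_lip (b : Bool) (s t : Strat (limTree k T c)) (n : ℕ)
    (h : ∀ p, (limTree k T c).len p ≤ n → s.s p = t.s p) (j : ℕ) :
    ∀ (i : ℕ) (q : (T i).Pos), (T i).len q ≤ n → (sApp b s j i).s q = (sApp b t j i).s q := by
  induction j with
  | zero =>
    intro i q hq
    show (open Classical in if h : (T i).len q < k + i then
      (s.s (liftPos (c := c) i q h.le)).1 i else (dflt (T i)).s q) =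
      (open Classical in if h : (T i).len q < k + i then
      (t.s (liftPos (c := c) i q h.le)).1 i else (dflt (T i)).s q)
    by_cases hl : (T i).len q < k + i
    · rw [dif_pos hl, dif_pos hl, h _ (by rw [len_liftPos]; exact hq)]
    · rw [dif_neg hl, dif_neg hl]
  | succ j ih =>
    intro i q hq
    exact (c i).lip b _ _ n (fun p hp => ih (i + 1) p hp) q hq

/-- The inverse limit of a sequence of coverings is a covering of the first tree. -/
noncomputable def limCover : Cover k (limTree k T c) (T 0) where
  toHom := limProj k T c 0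
  inj := fun p q hp h => LimPos.eq_of 0 p q (by rw [LimPos.len_eq]; exact hp) h
  surj := fun q hq => LimPos.exists_lift 0 q hq
  φ := fun b s => sLim b s 0
  fix := fun b s p hp => by
    show (sLim b s 0).s (p.1 0) = (s.s p).1 0
    have hp' : (T 0).len (p.1 0) < k + 0 := hp
    rw [sLim_eq_sRes b s 0 _ hp', sRes_apply s 0 p hp']
  lip := fun b s t n h q hq => by
    show (sApp b s ((T 0).len q + 1) 0).s q = (sApp b t ((T 0).len q + 1) 0).s q
    exact sApp_lip b s t n h _ 0 q hq
  lift := fun b s x hx => by
    have step : ∀ (i : ℕ) (y : {y : Branch (T i) // Cons b (sLim b s i) 0 y}),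
        ∃ z : {z : Branch (T (i + 1)) // Cons b (sLim b s (i + 1)) 0 z},
          ∀ n, (c i).f (z.1.x n) = y.1.x n := by
      rintro i ⟨y, hy⟩
      rw [← φ_sLim] at hy
      obtain ⟨z, hz, hzy⟩ := (c i).lift b _ y hy
      exact ⟨⟨z, hz⟩, hzy⟩
    choose nxt hnxt using step
    let X : ∀ i, {y : Branch (T i) // Cons b (sLim b s i) 0 y} := fun i =>
      Nat.rec (motive := fun i => {y : Branch (T i) // Cons b (sLim b s i) 0 y}) ⟨x, hx⟩
        (fun i y => nxt i y) i
    have hX : ∀ i n, (c i).f ((X (i + 1)).1.x n) = (X i).1.x n := fun i n => hnxt i (X i) n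
    let Y : Branch (limTree k T c) :=
      { x := fun n => ⟨fun i => (X i).1.x n, fun i => hX i n⟩
        len := fun n => (X 0).1.len n
        par := fun n => by
          apply Subtype.ext
          funext i
          exact (X i).1.par n }
    refine ⟨Y, ?_, fun n => rfl⟩
    intro n _ hb
    apply LimPos.eq_of (n + 1)
    · rw [LimPos.len_eq]
      show (limTree k T c).len (Y.x (n + 1)) ≤ _
      rw [Y.len]; omega
    · show (X (n + 1)).1.x (n + 1) = (s.s (Y.x n)).1 (n + 1)
      rw [(X (n + 1)).2 n (Nat.zero_le _) hb]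
      have hl : (T (n + 1)).len ((X (n + 1)).1.x n) < k + (n + 1) := by
        rw [(X (n + 1)).1.len]; omega
      rw [sLim_eq_sRes b s (n + 1) _ hl]
      exact sRes_apply s (n + 1) (Y.x n) hl

theorem limCover_toHom : (limCover (k := k) (T := T) (c := c)).toHom = limProj k T c 0 := rfl

theorem map_limProj (i : ℕ) (y : Branch (limTree k T c)) :
    (c i).toHom.map ((limProj k T c (i + 1)).map y) = (limProj k T c i).map y := by
  apply Branch.ext'
  funext n
  exact (y.x n).2 i

end limit

end Pool.Agent.Helper64.BD
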