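import Pool.Agent.Helper64.BD.PlayerT
import Pool.Agent.Helper64.BD.Limit

set_option autoImplicit false

/-!
# Borel determinacy (Martin)
-/

namespace Pool.Agent.Helper64.BD

/-- The unravelling covering. -/
noncomputable def unrCover (T : GTree) (k : ℕ) (hk : k.bodd = false) (G : Set T.Pos) :
    Cover k (unr T k hk G) T where
  toHom := unrHom T k hk G
  inj := by
    rintro ⟨⟨p, d⟩, hp⟩ ⟨⟨q, e⟩, hq⟩ hl h
    have hl' : T.len p ≤ k := hl
    have h' : p = q := h
    subst h'
    apply Subtype.ext
    exact Prod.ext rfl ((hp.low hl').trans (hq.low hl').symm)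
  surj := fun q hq => ⟨⟨(q, d0), Valid.low' hq⟩, rfl⟩
  φ := fun b s => if b = true then φT s else φF s
  fix := by
    rintro b s ⟨⟨p, d⟩, hp⟩ hl
    have hl' : T.len p < k := hl
    have hd : d = d0 := hp.low hl'.le
    subst hd
    show (if b = true then φT s else φF s).s p = (s.s ⟨(p, d0), hp⟩).1.1
    cases b
    · rw [if_neg (by decide), φF_low s hl'.le, ev_valid s hp]
    · rw [if_pos rfl, φT_low s hl'.le, ev_valid s hp]
  lip := by
    intro b s t n h q hq
    cases b
    · exact φF_lip s t h q hq
    · exact φT_lip s t h q hq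
  lift := by
    intro b s x hx
    cases b
    · exact φF_lift s x hx
    · exact φT_lift s x hx

/-- A set of branches is clopen. -/
def Clo {T : GTree} (A : Set (Branch T)) : Prop := IsO A ∧ IsO Aᶜ

theorem Clo.compl {T : GTree} {A : Set (Branch T)} (h : Clo A) : Clo Aᶜ :=
  ⟨h.2, by rw [compl_compl]; exact h.1⟩

theorem Clo.preimage {T' T : GTree} (f : Hom T' T) {A : Set (Branch T)} (h : Clo A) :
    Clo (f.map ⁻¹' A) := ⟨h.1.preimage f, by
  have := h.2.preimage f
  rw [Set.preimage_compl] at this
  exact this⟩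

theorem unr_clo {T : GTree} (k : ℕ) (hk : k.bodd = false) {O : Set (Branch T)} (hO : IsO O) :
    Clo ((unrHom T k hk {p | ∀ x : Branch T, x.x (T.len p) = p → x ∈ O}).map ⁻¹' O) := by
  set G : Set T.Pos := {p | ∀ x : Branch T, x.x (T.len p) = p → x ∈ O} with hG
  have hup : ∀ (x : Branch T) (n m : ℕ), n ≤ m → x.x n ∈ G → x.x m ∈ G := by
    intro x n m hnm hn y hy
    rw [x.len] at hy
    apply hn y
    rw [x.len, ← y.anc hnm, hy, x.anc hnm]
  have key : ∀ y : Branch (unr T k hk G),
      (unrHom T k hk G).map y ∈ O ↔ (y.x (k + 2)).1.2.2.1 = true := by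
    intro y
    set x := (unrHom T k hk G).map y with hx
    have hxy : ∀ n, (y.x n).1.1 = x.x n := fun n => rfl
    have hlen : ∀ n, T.len (y.x n).1.1 = n := fun n => y.len n
    -- the data are constant from `k + 2` on
    have hdat : ∀ n, k + 2 ≤ n → (y.x n).1.2 = (y.x (k + 2)).1.2 := by
      intro n hn
      obtain ⟨l, rfl⟩ := Nat.exists_eq_add_of_le hn
      clear hn
      induction l with
      | zero => rfl
      | succ l ih =>
        rw [← ih]
        have h1 := congrArg (fun z => z.1.2) (y.par (k + 2 + l))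
        simp only at h1
        rw [hlen, cut_high (by omega)] at h1
        exact h1
    have hv := (y.x (k + 2)).2.high (by rw [hlen])
    have hmem : ∀ n, k + 2 ≤ n → x.x n ∈ (y.x (k + 2)).1.2.2.2 := by
      intro n hn
      have h1 := (y.x n).2.high (by rw [hlen]; exact hn)
      rw [hdat n hn] at h1
      exact h1.2.2
    have hc2 : T.anc (k + 2) (y.x (k + 2)).1.1 = x.x (k + 2) := by
      rw [hxy]; exact x.anc le_rfl
    rw [hc2] at hv
    rcases hv.2.1 with ⟨hf, u, h1, h2, h3, h4, h5⟩ | ⟨hf, hQ⟩
    · rw [hf]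
      refine ⟨fun _ => rfl, fun _ => ?_⟩
      have h6 := hmem (T.len u) (by rw [x.len] at h3; exact h3)
      rw [h5] at h6
      have h7 := Comp.unique h6 (by rw [x.len])
      rw [x.len, GTree.anc_self] at h7
      exact h2 x h7.symm
    · rw [hf]
      refine ⟨fun hxO => ?_, fun h => absurd h (by decide)⟩
      exfalso
      obtain ⟨n, hn⟩ := hO x hxO
      have h6 : x.x n ∈ G := fun z hz => hn z (by rw [x.len] at hz; exact hz)
      have h7 := hup x n (max n (k + 2)) (le_max_left _ _) h6
      exact hQ.avoid _ (hmem _ (le_max_right _ _)) h7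
  constructor
  · intro y hy
    refine ⟨k + 2, fun z hz => ?_⟩
    have h1 := (key y).1 hy
    exact (key z).2 (by rw [hz]; exact h1)
  · intro y hy
    refine ⟨k + 2, fun z hz hz' => hy ?_⟩
    have h1 := (key z).1 hz'
    exact (key y).2 (by rw [← hz]; exact h1)

/-- Open sets can be unravelled. -/
theorem exists_cover_open {T : GTree} (k : ℕ) {O : Set (Branch T)} (hO : IsO O) :
    ∃ (T' : GTree) (c : Cover k T' T), Clo (c.toHom.map ⁻¹' O) := by
  cases hk : k.bodd
  · exact ⟨_, unrCover T k hk _, unr_clo k hk hO⟩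
  · have hk' : (k + 1).bodd = false := by rw [Nat.bodd_succ, hk]; rfl
    exact ⟨_, (unrCover T (k + 1) hk' _).mono (Nat.le_succ k), unr_clo (k + 1) hk' hO⟩

/-- Universally unravelable sets. -/
def UU {T : GTree} (A : Set (Branch T)) : Prop :=
  ∀ (T' : GTree) (f : Hom T' T) (k : ℕ), ∃ (T'' : GTree) (c : Cover k T'' T'),
    Clo ((f.comp c.toHom).map ⁻¹' A)

theorem UU.compl {T : GTree} {A : Set (Branch T)} (h : UU A) : UU Aᶜ := by
  intro T' f k
  obtain ⟨T'', c, hc⟩ := h T' f k
  exact ⟨T'', c, hc.compl⟩

theorem UU.of_clo {T : GTree} {A : Set (Branch T)} (h : Clo A) : UU A := by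
  intro T' f k
  exact ⟨T', Cover.id k T', h.preimage _⟩

theorem UU.iUnion {T : GTree} {A : ℕ → Set (Branch T)} (h : ∀ n, UU (A n)) :
    UU (⋃ n, A n) := by
  intro T' f k
  -- the sequence of coverings
  let St : Type 1 := Σ S : GTree, Hom S T
  have step : ∀ (i : ℕ) (st : St), ∃ (S' : GTree) (c : Cover (k + i) S' st.1),
      Clo ((st.2.comp c.toHom).map ⁻¹' A i) := fun i st => h i st.1 st.2 (k + i)
  choose S' c' hc' using step
  let st : ℕ → St := fun i => Nat.rec (motive := fun _ => St) ⟨T', f⟩
    (fun i s => ⟨S' i s, s.2.comp (c' i s).toHom⟩) i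
  let S : ℕ → GTree := fun i => (st i).1
  let g : ∀ i, Hom (S i) T := fun i => (st i).2
  let c : ∀ i, Cover (k + i) (S (i + 1)) (S i) := fun i => c' i (st i)
  have hg : ∀ i, g (i + 1) = (g i).comp (c i).toHom := fun i => rfl
  have hclo : ∀ i, Clo ((g (i + 1)).map ⁻¹' A i) := fun i => hc' i (st i)
  -- the limit
  let L := limTree k S c
  have hcomp : ∀ (i : ℕ) (y : Branch L), (g i).map ((limProj k S c i).map y) =
      f.map ((limProj k S c 0).map y) := by
    intro i y
    induction i with
    | zero => rfl
    | succ i ih =>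
      rw [← ih, ← map_limProj (c := c) i y, hg]
      rfl
  have hO : IsO ((f.comp (limProj k S c 0)).map ⁻¹' (⋃ n, A n)) := by
    intro y hy
    rw [Set.mem_preimage, Set.mem_iUnion] at hy
    obtain ⟨i, hi⟩ := hy
    have h1 : y ∈ (limProj k S c (i + 1)).map ⁻¹' ((g (i + 1)).map ⁻¹' A i) := by
      have h0 : (g (i + 1)).map ((limProj k S c (i + 1)).map y) =
        f.map ((limProj k S c 0).map y) := hcomp (i + 1) y
      show (g (i + 1)).map ((limProj k S c (i + 1)).map y) ∈ A i
      exact h0.symm ▸ hi
    obtain ⟨n, hn⟩ := ((hclo i).1.preimage (limProj k S c (i + 1))) y h1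
    refine ⟨n, fun z hz => ?_⟩
    have h2 : (g (i + 1)).map ((limProj k S c (i + 1)).map z) ∈ A i := hn z hz
    have h0 : (g (i + 1)).map ((limProj k S c (i + 1)).map z) =
        f.map ((limProj k S c 0).map z) := hcomp (i + 1) z
    exact Set.mem_iUnion.2 ⟨i, h0 ▸ h2⟩
  obtain ⟨T'', d, hd⟩ := exists_cover_open k hO
  exact ⟨T'', (limCover (c := c)).comp d, hd⟩

/-- Universally unravelable sets are determined. -/
theorem UU.determined {T : GTree} {A : Set (Branch T)} (h : UU A) (r : T.Pos)
    (hr : T.len r = 0) (hu : ∀ p, T.len p = 0 → p = r) (b : Bool) :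
    Wins b A ∨ Wins (!b) Aᶜ := by
  obtain ⟨T', c, hc⟩ := h T (Hom.id T) 0
  obtain ⟨r', hr'⟩ := c.surj r (by omega)
  have hr0 : T'.len r' = 0 := by rw [← c.len, hr', hr]
  have hu' : ∀ p, T'.len p = 0 → p = r' := by
    intro p hp
    apply c.inj p r' (by omega)
    rw [hr']
    exact hu _ (by rw [c.len, hp])
  rcases gale_stewart r' hr0 hu' b hc.1 with h1 | h1
  · left; exact Wins.of_cover c h1
  · right; exact Wins.of_cover c h1

/-! ### Games on sequences -/

section seq

variable {M : Type}

/-- The tree of finite sequences (in reverse order). -/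
@[reducible] def seqTree (M : Type) [Nonempty M] : GTree where
  Pos := List M
  len := List.length
  par := List.tail
  len_par := fun p => by cases p <;> simp
  par_root := fun p hp => by
    have : p = [] := List.length_eq_zero_iff.1 hp
    subst this; rfl
  child := fun p => ⟨Classical.arbitrary M :: p, rfl, rfl⟩

/-- The initial segment of length `n` of a sequence, in reverse order. -/
def ini (x : ℕ → M) : ℕ → List M
  | 0 => []
  | n + 1 => x n :: ini x n

@[simp] theorem ini_len (x : ℕ → M) (n : ℕ) : (ini x n).length = n := by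
  induction n with
  | zero => rfl
  | succ n ih => simp [ini, ih]

variable [Nonempty M]

/-- The branch of a sequence. -/
def toBr (x : ℕ → M) : Branch (seqTree M) where
  x := ini x
  len := ini_len x
  par := fun _ => rfl

/-- The sequence of a branch. -/
noncomputable def ofBr (y : Branch (seqTree M)) : ℕ → M :=
  fun n => (y.x (n + 1)).headD (Classical.arbitrary M)

theorem ini_ofBr (y : Branch (seqTree M)) (n : ℕ) : ini (ofBr y) n = y.x n := by
  induction n with
  | zero =>
    have := y.len 0
    exact (List.length_eq_zero_iff.1 this).symm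
  | succ n ih =>
    have h1 := y.len (n + 1)
    have h2 := y.par n
    show ofBr y n :: ini (ofBr y) n = y.x (n + 1)
    rw [ih, ← h2]
    unfold ofBr
    cases hc : y.x (n + 1) with
    | nil => rw [hc] at h1; simp at h1
    | cons a l => rfl

theorem ofBr_toBr (x : ℕ → M) : ofBr (toBr x) = x := rfl

/-- **Borel determinacy** for games on a (discrete) set of moves. The position after `n` moves is
given as the list of the moves in reverse order. -/
theorem borel_determinacy (A : Set (ℕ → M))
    (hA : @MeasurableSet (ℕ → M) (@MeasurableSpace.pi ℕ (fun _ => M) (fun _ => ⊤)) A) (b : Bool) :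
    (∃ s : List M → M, ∀ x : ℕ → M, (∀ n, n.bodd = b → x n = s (ini x n)) → x ∈ A) ∨
    (∃ s : List M → M, ∀ x : ℕ → M, (∀ n, n.bodd = !b → x n = s (ini x n)) → x ∉ A) := by
  -- transfer to branches
  have hUU : ∀ B : Set (ℕ → M),
      @MeasurableSet (ℕ → M) (@MeasurableSpace.pi ℕ (fun _ => M) (fun _ => ⊤)) B →
      UU (ofBr ⁻¹' B : Set (Branch (seqTree M))) := by
    intro B hB
    -- the σ-algebra of universally unravelable sets
    let MS : MeasurableSpace (ℕ → M) :=
      { MeasurableSet' := fun B => UU (ofBr ⁻¹' B : Set (Branch (seqTree M)))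
        measurableSet_empty := UU.of_clo ⟨fun x hx => absurd hx (by simp),
          fun x _ => ⟨0, fun y _ => by simp⟩⟩
        measurableSet_compl := fun B hB => hB.compl
        measurableSet_iUnion := fun f hf => by
          rw [Set.preimage_iUnion]
          exact UU.iUnion hf }
    have hle : @MeasurableSpace.pi ℕ (fun _ => M) (fun _ => ⊤) ≤ MS := by
      unfold MeasurableSpace.pi
      refine iSup_le fun n => ?_
      rintro C ⟨D, -, rfl⟩
      show UU (ofBr ⁻¹' ((fun x : ℕ → M => x n) ⁻¹' D) : Set (Branch (seqTree M)))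
      apply UU.of_clo
      have hdec : ∀ x y : Branch (seqTree M), y.x (n + 1) = x.x (n + 1) →
          ofBr y n = ofBr x n := by
        intro x y hxy
        unfold ofBr
        rw [hxy]
      constructor
      · intro x hx
        refine ⟨n + 1, fun y hy => ?_⟩
        show ofBr y n ∈ D
        rw [hdec x y hy]; exact hx
      · intro x hx
        refine ⟨n + 1, fun y hy hy' => hx ?_⟩
        show ofBr x n ∈ D
        rw [← hdec x y hy]; exact hy'
    exact hle B hB
  have hdet := (hUU A hA).determined ([] : List M) rfl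
    (fun p hp => List.length_eq_zero_iff.1 hp) b
  have conv : ∀ (c : Bool) (W : Set (ℕ → M)), Wins c (ofBr ⁻¹' W : Set (Branch (seqTree M))) →
      ∃ s : List M → M, ∀ x : ℕ → M, (∀ n, n.bodd = c → x n = s (ini x n)) → x ∈ W := by
    rintro c W ⟨s, hs⟩
    refine ⟨fun p => (s.s p).headD (Classical.arbitrary M), fun x hx => ?_⟩
    have := hs (toBr x) (by
      intro n _ hn
      show x n :: ini x n = s.s (ini x n)
      rw [hx n hn]
      have h1 := s.par (ini x n)
      have h2 := s.len (ini x n)
      cases hc : s.s (ini x n) with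
      | nil => rw [hc] at h2; simp at h2
      | cons a l =>
        rw [hc] at h1
        have h3 : l = ini x n := h1
        show (s.s (ini x n)).headD (Classical.arbitrary M) :: ini x n = a :: l
        rw [hc, h3]
        rfl)
    exact this
  rcases hdet with h | h
  · left; exact conv b A h
  · right
    obtain ⟨s, hs⟩ := conv (!b) Aᶜ h
    exact ⟨s, fun x hx => hs x hx⟩

end seq

end Pool.Agent.Helper64.BD
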