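import Pool.Agent.Helper64.BD.Basic

set_option autoImplicit false

/-!
# Coverings of game trees, composition and transfer of determinacy
-/

namespace Pool.Agent.Helper64.BD

/-- A map of trees preserving lengths and parents. -/
structure Hom (T' T : GTree) where
  f : T'.Pos → T.Pos
  len : ∀ p, T.len (f p) = T'.len p
  par : ∀ p, f (T'.par p) = T.par (f p)

namespace Hom

/-- The induced map on branches. -/
def map {T' T : GTree} (h : Hom T' T) (y : Branch T') : Branch T where
  x := fun n => h.f (y.x n)
  len := fun n => by rw [h.len, y.len]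
  par := fun n => by rw [← h.par, y.par]

/-- Identity. -/
def id (T : GTree) : Hom T T := ⟨fun p => p, fun _ => rfl, fun _ => rfl⟩

/-- Composition (first `g`, then `h`). -/
def comp {T'' T' T : GTree} (h : Hom T' T) (g : Hom T'' T') : Hom T'' T where
  f := fun p => h.f (g.f p)
  len := fun p => by rw [h.len, g.len]
  par := fun p => by rw [g.par, h.par]

end Hom

/-- A `k`-covering of trees. -/
structure Cover (k : ℕ) (T' T : GTree) extends Hom T' T where
  inj : ∀ p q, T'.len p ≤ k → f p = f q → p = q
  surj : ∀ q, T.len q ≤ k → ∃ p, f p = q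
  φ : Bool → Strat T' → Strat T
  fix : ∀ (b : Bool) (s : Strat T') (p : T'.Pos), T'.len p < k → (φ b s).s (f p) = f (s.s p)
  lip : ∀ (b : Bool) (s t : Strat T') (n : ℕ), (∀ p, T'.len p ≤ n → s.s p = t.s p) →
    ∀ q, T.len q ≤ n → (φ b s).s q = (φ b t).s q
  lift : ∀ (b : Bool) (s : Strat T') (x : Branch T), Cons b (φ b s) 0 x →
    ∃ y : Branch T', Cons b s 0 y ∧ ∀ n, f (y.x n) = x.x n

namespace Cover

/-- The identity covering. -/
def id (k : ℕ) (T : GTree) : Cover k T T where
  toHom := Hom.id T
  inj := fun _ _ _ h => h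
  surj := fun q _ => ⟨q, rfl⟩
  φ := fun _ s => s
  fix := fun _ _ _ _ => rfl
  lip := fun _ _ _ _ h q hq => h q hq
  lift := fun _ _ x hx => ⟨x, hx, fun _ => rfl⟩

/-- A `l`-covering is a `k`-covering for `k ≤ l`. -/
def mono {k l : ℕ} {T' T : GTree} (h : k ≤ l) (c : Cover l T' T) : Cover k T' T where
  toHom := c.toHom
  inj := fun p q hp => c.inj p q (hp.trans h)
  surj := fun q hq => c.surj q (hq.trans h)
  φ := c.φ
  fix := fun b s p hp => c.fix b s p (lt_of_lt_of_le hp h)
  lip := c.lip
  lift := c.lift

/-- Composition of coverings. -/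
def comp {k : ℕ} {T'' T' T : GTree} (c : Cover k T' T) (d : Cover k T'' T') : Cover k T'' T where
  toHom := c.toHom.comp d.toHom
  inj := fun p q hp h => d.inj p q hp (c.inj _ _ (by rw [d.len]; exact hp) h)
  surj := fun q hq => by
    obtain ⟨p, rfl⟩ := c.surj q hq
    obtain ⟨r, rfl⟩ := d.surj p (by rw [← c.len]; exact hq)
    exact ⟨r, rfl⟩
  φ := fun b s => c.φ b (d.φ b s)
  fix := fun b s p hp => by
    show (c.φ b (d.φ b s)).s (c.f (d.f p)) = c.f (d.f (s.s p))
    rw [c.fix b _ _ (by rw [d.len]; exact hp), d.fix b _ _ hp]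
  lip := fun b s t n h q hq => c.lip b _ _ n (fun p hp => d.lip b s t n h p hp) q hq
  lift := fun b s x hx => by
    obtain ⟨y, hy, hyx⟩ := c.lift b _ x hx
    obtain ⟨z, hz, hzy⟩ := d.lift b s y hy
    exact ⟨z, hz, fun n => by
      show c.f (d.f (z.x n)) = x.x n
      rw [hzy, hyx]⟩

end Cover

/-- Open sets of branches. -/
def IsO {T : GTree} (A : Set (Branch T)) : Prop :=
  ∀ x ∈ A, ∃ n, ∀ y : Branch T, y.x n = x.x n → y ∈ A

theorem IsO.preimage {T' T : GTree} (h : Hom T' T) {A : Set (Branch T)} (hA : IsO A) :
    IsO (h.map ⁻¹' A) := by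
  intro x hx
  obtain ⟨n, hn⟩ := hA _ hx
  exact ⟨n, fun y hy => hn _ (by show h.f (y.x n) = h.f (x.x n); rw [hy])⟩

/-- Player `b` wins the game with payoff set `W` (on all branches, from all roots). -/
def Wins {T : GTree} (b : Bool) (W : Set (Branch T)) : Prop :=
  ∃ s : Strat T, ∀ x : Branch T, Cons b s 0 x → x ∈ W

theorem Wins.of_cover {k : ℕ} {T' T : GTree} (c : Cover k T' T) {b : Bool} {W : Set (Branch T)}
    (h : Wins b (c.toHom.map ⁻¹' W)) : Wins b W := by
  obtain ⟨s, hs⟩ := h
  refine ⟨c.φ b s, fun x hx => ?_⟩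
  obtain ⟨y, hy, hyx⟩ := c.lift b s x hx
  have h1 := hs y hy
  have h2 : c.toHom.map y = x := Branch.ext' (funext hyx)
  rw [Set.mem_preimage, h2] at h1
  exact h1

/-- Gale–Stewart: open games are determined on trees with a unique root. -/
theorem gale_stewart {T : GTree} (r : T.Pos) (hr : T.len r = 0) (hu : ∀ p, T.len p = 0 → p = r)
    (b : Bool) {W : Set (Branch T)} (hW : IsO W) : Wins b W ∨ Wins (!b) Wᶜ := by
  classical
  let G : Set T.Pos := {p | ∀ x : Branch T, x.x (T.len p) = p → x ∈ W}
  have hroot : ∀ x : Branch T, x.x 0 = r := fun x => hu _ (x.len 0)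
  by_cases h : CanReach b G r
  · left
    refine ⟨reachStrat b G r, fun x hx => ?_⟩
    obtain ⟨n, _, hn⟩ := reachStrat_spec h x (by rw [hr]; exact hroot x) (by rw [hr]; exact hx)
    exact hn x (by rw [x.len])
  · right
    -- the opponent keeps the position unreachable
    let s : Strat T :=
      { s := fun p => if hp : ¬ CanReach b G p then (exists_not_canReach hp).choose
          else (dflt T).s p
        par := by
          intro p
          by_cases hp : ¬ CanReach b G p
          · simp only [hp, not_false_eq_true, dite_true]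
            exact (exists_not_canReach hp).choose_spec.1
          · simp only [hp, dite_false]; exact Strat.par _ p
        len := by
          intro p
          by_cases hp : ¬ CanReach b G p
          · simp only [hp, not_false_eq_true, dite_true]
            exact (exists_not_canReach hp).choose_spec.2.1
          · simp only [hp, dite_false]; exact Strat.len _ p }
    have hs : ∀ p, ¬ CanReach b G p → ¬ CanReach b G (s.s p) := by
      intro p hp
      simp only [s, hp, not_false_eq_true, dite_true]
      exact (exists_not_canReach hp).choose_spec.2.2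
    refine ⟨s, fun x hx => ?_⟩
    have key : ∀ n, ¬ CanReach b G (x.x n) := by
      intro n
      induction n with
      | zero => rw [hroot]; exact h
      | succ n ih =>
        by_cases hb : n.bodd = b
        · exact not_canReach_child (x.par n) (by rw [x.len, x.len]) (by rw [x.len]; exact hb) ih
        · rw [hx n (Nat.zero_le _) (by cases b <;> cases hn : n.bodd <;> simp_all)]
          exact hs _ ih
    intro hxW
    obtain ⟨n, hn⟩ := hW x hxW
    exact key n (CanReach.of_mem (fun y hy => hn y (by rw [x.len] at hy; exact hy)))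

end Pool.Agent.Helper64.BD
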