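import Pool.Agent.Helper64.BD.Borel

set_option autoImplicit false

/-!
# Labelled trees, triangles and a determinacy argument in the style of Marks
-/

namespace Pool.Agent.Helper64.BD

/-- Labelled binary trees; the first entry of a list is the first step from the root. -/
abbrev LTree : Type := List Bool → Fin 5

/-- Three pairwise distinct labels. -/
def D3 (i j k : Fin 5) : Prop := i ≠ j ∧ i ≠ k ∧ j ≠ k

instance (i j k : Fin 5) : Decidable (D3 i j k) := by unfold D3; infer_instance

theorem D3.rot {i j k : Fin 5} (h : D3 i j k) : D3 j k i := ⟨h.2.2, h.1.symm, h.2.1.symm⟩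

/-- Every node has a label different from those of its two children, which differ, too. -/
def Proper (b : LTree) : Prop := ∀ p, D3 (b p) (b (p ++ [false])) (b (p ++ [true]))

/-- The tree with root label `i` and given subtrees. -/
def node (i : Fin 5) (l r : LTree) : LTree
  | [] => i
  | false :: p => l p
  | true :: p => r p

/-- The subtree at a child. -/
def sub (s : Bool) (b : LTree) : LTree := fun p => b (s :: p)

theorem node_sub (b : LTree) : node (b []) (sub false b) (sub true b) = b := by
  funext p
  match p with
  | [] => rfl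
  | false :: p => rfl
  | true :: p => rfl

theorem Proper.sub {b : LTree} (h : Proper b) (s : Bool) : Proper (sub s b) := fun p => h (s :: p)

theorem Proper.node {i : Fin 5} {l r : LTree} (hl : Proper l) (hr : Proper r)
    (h : D3 i (l []) (r [])) : Proper (node i l r) := by
  intro p
  match p with
  | [] => exact h
  | false :: p => exact hl p
  | true :: p => exact hr p

/-- Replace an illegal pair of labels by a legal one. -/
def leg (i j k : Fin 5) (s : Bool) : Fin 5 :=
  if D3 i j k then (if s then k else j) else (if s then i + 2 else i + 1)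

theorem leg_D3 (i j k : Fin 5) : D3 i (leg i j k false) (leg i j k true) := by
  by_cases h : D3 i j k
  · simp only [leg, h, if_true]; exact h
  · have h5 : ∀ i : Fin 5, D3 i (i + 1) (i + 2) := by decide
    simp only [leg, h, if_false, if_true, Bool.false_eq_true]
    exact h5 i

theorem leg_of_D3 {i j k : Fin 5} (h : D3 i j k) (s : Bool) :
    leg i j k s = if s then k else j := by
  simp [leg, h]

/-- A move: a labelling of one level (only one level of the function matters). -/
def Mv : Type := List Bool → Fin 5

instance : MeasurableSpace Mv := ⊤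
instance : Nonempty Mv := ⟨fun _ => 0⟩

/-- Decoding a sequence of moves into a labelled tree. -/
def dec : List Bool → Fin 5 → (ℕ → Mv) → Fin 5
  | [], i, _ => i
  | s :: p, i, t => dec p (leg i (t 0 [false]) (t 0 [true]) s) (fun n q => t (n + 1) (s :: q))

/-- Decoding as a tree. -/
def decT (i : Fin 5) (t : ℕ → Mv) : LTree := fun p => dec p i t

theorem decT_nil (i : Fin 5) (t : ℕ → Mv) : decT i t [] = i := rfl

theorem decT_proper (i : Fin 5) (t : ℕ → Mv) : Proper (decT i t) := by
  intro p
  induction p generalizing i t with
  | nil => exact leg_D3 _ _ _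
  | cons s p ih => exact ih _ _

/-- Encoding a tree as a sequence of moves. -/
def enc (b : LTree) : ℕ → Mv := fun n q => if q.length = n + 1 then b q else 0

theorem decT_enc {b : LTree} (hb : Proper b) : decT (b []) (enc b) = b := by
  funext p
  induction p generalizing b with
  | nil => rfl
  | cons s p ih =>
    have h1 : leg (b []) (enc b 0 [false]) (enc b 0 [true]) s = sub s b [] := by
      have h2 : enc b 0 [false] = b [false] := rfl
      have h3 : enc b 0 [true] = b [true] := rfl
      have h4 : D3 (b []) (b [false]) (b [true]) := hb []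
      rw [h2, h3, leg_of_D3 h4]
      cases s <;> rfl
    have h2 : (fun n q => enc b (n + 1) (s :: q) : ℕ → Mv) = enc (sub s b) := by
      funext n q
      show (if (s :: q).length = n + 1 + 1 then b (s :: q) else 0) =
        (if q.length = n + 1 then sub s b q else 0)
      simp [sub]
    show dec p (leg (b []) (enc b 0 [false]) (enc b 0 [true]) s)
      (fun n q => enc b (n + 1) (s :: q)) = b (s :: p)
    rw [h1, h2]
    exact ih (hb.sub s)

theorem dec_congr (p : List Bool) : ∀ (i : Fin 5) (t u : ℕ → Mv),
    (∀ n, n < p.length → t n = u n) → dec p i t = dec p i u := by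
  induction p with
  | nil => intro i t u _; rfl
  | cons s p ih =>
    intro i t u h
    have h0 : t 0 = u 0 := h 0 (by simp)
    show dec p _ _ = dec p _ _
    rw [h0]
    apply ih
    intro n hn
    funext q
    rw [h (n + 1) (by simp; omega)]

theorem enc_congr {b c : LTree} {n : ℕ} (h : ∀ p, p.length = n + 1 → b p = c p) :
    enc b n = enc c n := by
  funext q
  show (if q.length = n + 1 then b q else 0) = (if q.length = n + 1 then c q else 0)
  by_cases hq : q.length = n + 1
  · rw [if_pos hq, if_pos hq, h q hq]
  · rw [if_neg hq, if_neg hq]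

/-! ### Plays against a given sequence of moves -/

/-- The positions of the play in which player `c` follows `s` and the opponent plays `t`. -/
def pl (c : Bool) (s : List Mv → Mv) (t : ℕ → Mv) : ℕ → List Mv
  | 0 => []
  | n + 1 => (if n.bodd = c then s (pl c s t n) else t (n / 2)) :: pl c s t n

/-- The play. -/
def play (c : Bool) (s : List Mv → Mv) (t : ℕ → Mv) : ℕ → Mv :=
  fun n => if n.bodd = c then s (pl c s t n) else t (n / 2)

theorem ini_play (c : Bool) (s : List Mv → Mv) (t : ℕ → Mv) (n : ℕ) :
    ini (play c s t) n = pl c s t n := by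
  induction n with
  | zero => rfl
  | succ n ih =>
    show play c s t n :: ini (play c s t) n = _
    rw [ih]; rfl

theorem play_cons (c : Bool) (s : List Mv → Mv) (t : ℕ → Mv) (n : ℕ) (h : n.bodd = c) :
    play c s t n = s (ini (play c s t) n) := by
  rw [ini_play]
  exact if_pos h

theorem play_opp (c : Bool) (s : List Mv → Mv) (t : ℕ → Mv) (n : ℕ) (h : n.bodd ≠ c) :
    play c s t n = t (n / 2) := if_neg h

theorem pl_congr (c : Bool) (s : List Mv → Mv) (t u : ℕ → Mv) (n : ℕ)
    (h : ∀ m, 2 * m < n → t m = u m) : pl c s t n = pl c s u n := by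
  induction n with
  | zero => rfl
  | succ n ih =>
    show _ :: _ = _ :: _
    rw [ih (fun m hm => h m (by omega)), h (n / 2) (by omega)]

/-- The response sequence of player `c`. -/
def resp (c : Bool) (s : List Mv → Mv) (t : ℕ → Mv) : ℕ → Mv :=
  fun n => play c s t (2 * n + c.toNat)

theorem resp_congr (c : Bool) (s : List Mv → Mv) (t u : ℕ → Mv) (n : ℕ)
    (h : ∀ m, m ≤ n → t m = u m) : resp c s t n = resp c s u n := by
  unfold resp play
  have hb : (2 * n + c.toNat).bodd = c := by cases c <;> simp
  rw [if_pos hb, if_pos hb, pl_congr c s t u _ (fun m hm => h m (by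
    have : c.toNat ≤ 1 := by cases c <;> simp
    omega))]

/-- A fixed point principle for contracting maps on labelled trees. -/
theorem exists_fix {I : Type} (F : (I → LTree) → (I → LTree))
    (hF : ∀ n (f g : I → LTree), (∀ i p, p.length < n → f i p = g i p) →
      ∀ i p, p.length < n + 1 → F f i p = F g i p) : ∃ f, F f = f := by
  let g : ℕ → I → LTree := fun n => Nat.rec (fun _ _ => 0) (fun _ f => F f) n
  have hg : ∀ n, g (n + 1) = F (g n) := fun n => rfl
  have hstep : ∀ n, ∀ i p, p.length < n → g (n + 1) i p = g n i p := by
    intro n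
    induction n with
    | zero => intro i p hp; omega
    | succ n ih =>
      intro i p hp
      rw [hg (n + 1), hg n]
      exact hF n _ _ ih i p hp
  have hst : ∀ m n i p, p.length < n → g (n + m) i p = g n i p := by
    intro m
    induction m with
    | zero => intro n i p _; rfl
    | succ m ih =>
      intro n i p hp
      rw [show n + (m + 1) = (n + m) + 1 by omega, hstep (n + m) i p (by omega), ih n i p hp]
  let f : I → LTree := fun i p => g (p.length + 1) i p
  have hf : ∀ n i p, p.length < n → f i p = g n i p := by
    intro n i p hp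
    obtain ⟨m, rfl⟩ := Nat.exists_eq_add_of_le (show p.length + 1 ≤ n by omega)
    exact (hst m (p.length + 1) i p (by omega)).symm
  refine ⟨f, ?_⟩
  funext i p
  rw [hF p.length f (g p.length) (fun i q hq => hf _ i q hq) i p (by omega),
    hf (p.length + 1) i p (by omega)]

/-- The simultaneous play on a triangle. -/
theorem exists_triangle (c : Bool) (i : Fin 3 → Fin 5)
    (s : Fin 3 → List Mv → Mv) :
    ∃ b : Fin 3 → LTree, (∀ m, Proper (b m)) ∧ (∀ m, b m [] = i m) ∧
      ∀ m, b m = decT (i m) (resp c (s m) (enc (node (i m) (b (m + 1)) (b (m + 2))))) := by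
  obtain ⟨b, hb⟩ := exists_fix
    (fun b m => decT (i m) (resp c (s m) (enc (node (i m) (b (m + 1)) (b (m + 2))))))
    (by
      intro n f g hfg m p hp
      apply dec_congr
      intro j hj
      apply resp_congr
      intro l hl
      apply enc_congr
      intro q hq
      match q with
      | [] => simp at hq
      | false :: q =>
        show f (m + 1) q = g (m + 1) q
        exact hfg _ _ (by simp at hq; omega)
      | true :: q =>
        show f (m + 2) q = g (m + 2) q
        exact hfg _ _ (by simp at hq; omega))
  refine ⟨b, fun m => ?_, fun m => ?_, fun m => (congrFun hb m).symm⟩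
  · rw [← hb]; exact decT_proper _ _
  · rw [← hb]; rfl

/-! ### The space of points -/

/-- The space: triples of proper trees with distinct root labels. -/
abbrev XX : Type := {x : LTree × LTree × LTree // Proper x.1 ∧ Proper x.2.1 ∧ Proper x.2.2 ∧
  D3 (x.1 []) (x.2.1 []) (x.2.2 [])}

/-- Rotation of the first triangle. -/
def rot (x : XX) : XX := ⟨(x.1.2.1, x.1.2.2, x.1.1), x.2.2.1, x.2.2.2.1, x.2.1, x.2.2.2.2.rot⟩

/-- Exchanging the two triangles at the root. -/
def flip (x : XX) : XX := ⟨(node (x.1.1 []) x.1.2.1 x.1.2.2, sub false x.1.1, sub true x.1.1),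
  Proper.node x.2.2.1 x.2.2.2.1 x.2.2.2.2, x.2.1.sub _, x.2.1.sub _, x.2.1 []⟩

/-- Rotation of the second triangle. -/
def del (x : XX) : XX := flip (rot (flip x))

theorem flip_flip (x : XX) : flip (flip x) = x := by
  apply Subtype.ext
  refine Prod.ext ?_ (Prod.ext rfl rfl)
  exact node_sub x.1.1

theorem rot3 (x : XX) : rot (rot (rot x)) = x := rfl

theorem del3 (x : XX) : del (del (del x)) = x := by
  unfold del
  rw [flip_flip, flip_flip, rot3, flip_flip]

/-- The label of a point. -/
def lab (x : XX) : Fin 5 := x.1.1 []

theorem lab_rot (x : XX) : lab (rot x) ≠ lab x := x.2.2.2.2.1.symm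

theorem lab_rot2 (x : XX) : lab (rot (rot x)) ≠ lab x := x.2.2.2.2.2.1.symm

theorem lab_flip (x : XX) : lab (flip x) = lab x := rfl

theorem lab_del (x : XX) : lab (del x) ≠ lab x := by
  unfold del
  rw [lab_flip, ← lab_flip x]
  exact lab_rot _

theorem measurable_lab : Measurable lab :=
  (measurable_pi_apply (X := fun _ : List Bool => Fin 5) []).comp
    (measurable_fst.comp measurable_subtype_coe)

theorem measurable_rot : Measurable rot := by
  apply Measurable.subtype_mk
  have h : Measurable (fun x : XX => x.1) := measurable_subtype_coe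
  exact h.snd.fst.prodMk (h.snd.snd.prodMk h.fst)

theorem measurable_flip : Measurable flip := by
  apply Measurable.subtype_mk
  have h : Measurable (fun x : XX => x.1) := measurable_subtype_coe
  have hsub : ∀ s, Measurable (fun x : XX => sub s x.1.1) := by
    intro s
    rw [measurable_pi_iff]
    intro p
    exact (measurable_pi_apply (s :: p)).comp h.fst
  refine Measurable.prodMk ?_ ((hsub false).prodMk (hsub true))
  rw [measurable_pi_iff]
  intro p
  match p with
  | [] => exact (measurable_pi_apply []).comp h.fst
  | false :: p => exact (measurable_pi_apply p).comp h.snd.fst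
  | true :: p => exact (measurable_pi_apply p).comp h.snd.snd

theorem measurable_del : Measurable del :=
  measurable_flip.comp (measurable_rot.comp measurable_flip)

theorem measurableSet_proper : MeasurableSet {b : LTree | Proper b} := by
  have : {b : LTree | Proper b} = ⋂ p : List Bool,
      (fun b : LTree => (b p, b (p ++ [false]), b (p ++ [true]))) ⁻¹'
        {z : Fin 5 × Fin 5 × Fin 5 | D3 z.1 z.2.1 z.2.2} := by
    ext b; simp [Proper]
  rw [this]
  refine MeasurableSet.iInter fun p => ?_
  have hm : Measurable (fun b : LTree => (b p, b (p ++ [false]), b (p ++ [true]))) :=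
    (measurable_pi_apply _).prodMk ((measurable_pi_apply _).prodMk (measurable_pi_apply _))
  exact hm (Set.toFinite _).measurableSet

theorem measurableSet_XX : MeasurableSet {x : LTree × LTree × LTree |
    Proper x.1 ∧ Proper x.2.1 ∧ Proper x.2.2 ∧ D3 (x.1 []) (x.2.1 []) (x.2.2 [])} := by
  have h1 : MeasurableSet {x : LTree × LTree × LTree | Proper x.1} :=
    measurable_fst measurableSet_proper
  have h2 : MeasurableSet {x : LTree × LTree × LTree | Proper x.2.1} :=
    (measurable_fst.comp measurable_snd) measurableSet_proper
  have h3 : MeasurableSet {x : LTree × LTree × LTree | Proper x.2.2} :=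
    (measurable_snd.comp measurable_snd) measurableSet_proper
  have h4 : MeasurableSet {x : LTree × LTree × LTree | D3 (x.1 []) (x.2.1 []) (x.2.2 [])} := by
    have hm : Measurable (fun x : LTree × LTree × LTree => (x.1 [], x.2.1 [], x.2.2 [])) :=
      ((measurable_pi_apply _).comp measurable_fst).prodMk
        (((measurable_pi_apply _).comp (measurable_fst.comp measurable_snd)).prodMk
          ((measurable_pi_apply _).comp (measurable_snd.comp measurable_snd)))
    exact hm (Set.toFinite {z : Fin 5 × Fin 5 × Fin 5 | D3 z.1 z.2.1 z.2.2}).measurableSet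
  exact h1.inter (h2.inter (h3.inter h4))

instance : StandardBorelSpace XX := measurableSet_XX.standardBorel

/-- The point determined by a play of the game with root label `i`. -/
def pt (i : Fin 5) (x : ℕ → Mv) : XX :=
  ⟨(decT i (fun n => x (2 * n + 1)), sub false (decT i (fun n => x (2 * n))),
    sub true (decT i (fun n => x (2 * n)))),
    decT_proper i (fun n => x (2 * n + 1)), (decT_proper i (fun n => x (2 * n))).sub false,
    (decT_proper i (fun n => x (2 * n))).sub true, decT_proper i (fun n => x (2 * n)) []⟩

theorem measurable_dec (p : List Bool) : ∀ {Ω : Type} [MeasurableSpace Ω] (i : Ω → Fin 5)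
    (t : Ω → ℕ → Mv), Measurable i → (∀ n q, Measurable (fun ω => t ω n q)) →
    Measurable (fun ω => dec p (i ω) (t ω)) := by
  induction p with
  | nil => intro Ω _ i t hi _; exact hi
  | cons s p ih =>
    intro Ω _ i t hi ht
    apply ih (fun ω => leg (i ω) (t ω 0 [false]) (t ω 0 [true]) s)
      (fun ω n q => t ω (n + 1) (s :: q))
    · have h1 : Measurable (fun ω => (i ω, t ω 0 [false], t ω 0 [true])) :=
        hi.prodMk ((ht 0 _).prodMk (ht 0 _))
      have h2 : Measurable (fun z : Fin 5 × Fin 5 × Fin 5 => leg z.1 z.2.1 z.2.2 s) :=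
        Measurable.of_discrete
      exact h2.comp h1
    · intro n q
      exact ht (n + 1) (s :: q)

theorem measurable_pt (i : Fin 5) : Measurable (pt i) := by
  apply Measurable.subtype_mk
  have hc : ∀ (f : ℕ → ℕ) (n : ℕ) (q : List Bool),
      Measurable (fun x : ℕ → Mv => (x (f n)) q) := by
    intro f n q
    have h1 : Measurable (fun m : Mv => m q) := fun _ _ => trivial
    exact h1.comp (measurable_pi_apply (f n))
  have hd : ∀ (f : ℕ → ℕ) (p : List Bool),
      Measurable (fun x : ℕ → Mv => dec p i (fun n => x (f n))) := by
    intro f p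
    exact measurable_dec p (fun _ => i) (fun (x : ℕ → Mv) n => x (f n)) measurable_const (hc f)
  refine Measurable.prodMk ?_ (Measurable.prodMk ?_ ?_)
  · rw [measurable_pi_iff]
    intro p
    exact hd (fun n => 2 * n + 1) p
  · rw [measurable_pi_iff]
    intro p
    exact hd (fun n => 2 * n) (false :: p)
  · rw [measurable_pi_iff]
    intro p
    exact hd (fun n => 2 * n) (true :: p)

theorem exists_inj_of {P : Fin 5 → Prop} (h : ¬ ∃ f : Fin 3 → Fin 5, Function.Injective f ∧
    ∀ m, P (f m)) : ∃ f : Fin 3 → Fin 5, Function.Injective f ∧ ∀ m, ¬ P (f m) := by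
  classical
  by_contra hcon
  have h1 : ∀ (Q : Fin 5 → Prop) [DecidablePred Q], (¬ ∃ f : Fin 3 → Fin 5, Function.Injective f ∧ ∀ m, Q (f m)) →
      (Finset.univ.filter Q).card ≤ 2 := by
    intro Q _ hQ
    by_contra hc
    push Not at hc
    obtain ⟨t, ht, htc⟩ := Finset.exists_subset_card_eq (show 3 ≤ (Finset.univ.filter Q).card from hc)
    apply hQ
    refine ⟨fun m => (t.orderEmbOfFin htc m), (t.orderEmbOfFin htc).injective, fun m => ?_⟩
    have := ht (t.orderEmbOfFin_mem htc m)
    exact (Finset.mem_filter.1 this).2
  have h2 := h1 P h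
  have h3 := h1 (fun i => ¬ P i) hcon
  have h4 := Finset.card_filter_add_card_filter_not (s := (Finset.univ : Finset (Fin 5))) P
  simp only [Finset.card_univ, Fintype.card_fin] at h4
  omega

theorem D3_of_inj {i : Fin 3 → Fin 5} (hi : Function.Injective i) (m : Fin 3) :
    D3 (i m) (i (m + 1)) (i (m + 2)) := by
  have key : ∀ m : Fin 3, m ≠ m + 1 ∧ m ≠ m + 2 ∧ m + 1 ≠ m + 2 := by decide
  obtain ⟨h1, h2, h3⟩ := key m
  exact ⟨hi.ne h1, hi.ne h2, hi.ne h3⟩

/-- **Marks's lemma** for the two rotations: every Borel set contains a `rot`-triangle or its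
complement contains a `del`-triangle. -/
theorem marks {A : Set XX} (hA : MeasurableSet A) :
    (∃ x, x ∈ A ∧ rot x ∈ A ∧ rot (rot x) ∈ A) ∨
    (∃ x, x ∉ A ∧ del x ∉ A ∧ del (del x) ∉ A) := by
  have hdet := fun i : Fin 5 => borel_determinacy (pt i ⁻¹' A) (measurable_pt i hA) true
  -- the labels at which player `true` wins
  let P : Fin 5 → Prop := fun i => ∃ s : List Mv → Mv, ∀ x : ℕ → Mv,
    (∀ n, n.bodd = true → x n = s (ini x n)) → x ∈ pt i ⁻¹' A
  by_cases h : ∃ f : Fin 3 → Fin 5, Function.Injective f ∧ ∀ m, P (f m)
  · left
    obtain ⟨i, hi, hP⟩ := h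
    choose s hs using hP
    obtain ⟨b, hb1, hb2, hb3⟩ := exists_triangle true i s
    have hD : ∀ m, D3 (b m []) (b (m + 1) []) (b (m + 2) []) := fun m => by
      rw [hb2, hb2, hb2]; exact D3_of_inj hi m
    have hN : ∀ m, Proper (node (i m) (b (m + 1)) (b (m + 2))) := fun m =>
      (hb1 _).node (hb1 _) (by have := hD m; rwa [hb2 m] at this)
    have key : ∀ m, (⟨(b m, b (m + 1), b (m + 2)), hb1 _, hb1 _, hb1 _, hD m⟩ : XX) ∈ A := by
      intro m
      have h1 := hs m (play true (s m) (enc (node (i m) (b (m + 1)) (b (m + 2)))))
        (fun n hn => play_cons _ _ _ n hn)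
      rw [Set.mem_preimage] at h1
      convert h1 using 1
      apply Subtype.ext
      have h2 : decT (i m) (fun n => play true (s m)
          (enc (node (i m) (b (m + 1)) (b (m + 2)))) (2 * n)) =
          node (i m) (b (m + 1)) (b (m + 2)) := by
        have h3 : (fun n => play true (s m)
          (enc (node (i m) (b (m + 1)) (b (m + 2)))) (2 * n)) =
            enc (node (i m) (b (m + 1)) (b (m + 2))) := by
          funext n
          rw [play_opp _ _ _ _ (by simp)]
          congr 1; omega
        rw [h3]
        exact decT_enc (hN m)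
      show (b m, b (m + 1), b (m + 2)) = _
      simp only [pt]
      rw [h2]
      refine Prod.ext ?_ (Prod.ext rfl rfl)
      exact hb3 m
    exact ⟨_, key 0, key 1, key 2⟩
  · right
    obtain ⟨i, hi, hP⟩ := exists_inj_of h
    have hP' : ∀ m, ∃ s : List Mv → Mv, ∀ x : ℕ → Mv,
        (∀ n, n.bodd = !true → x n = s (ini x n)) → x ∉ pt (i m) ⁻¹' A := fun m =>
      (hdet (i m)).resolve_left (hP m)
    choose s hs using hP'
    obtain ⟨e, he1, he2, he3⟩ := exists_triangle false i s
    have hD : ∀ m, D3 (e m []) (e (m + 1) []) (e (m + 2) []) := fun m => by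
      rw [he2, he2, he2]; exact D3_of_inj hi m
    have hN : ∀ m, Proper (node (i m) (e (m + 1)) (e (m + 2))) := fun m =>
      (he1 _).node (he1 _) (by have := hD m; rwa [he2 m] at this)
    let z : Fin 3 → XX := fun m => ⟨(e m, e (m + 1), e (m + 2)), he1 _, he1 _, he1 _, hD m⟩
    have hz : ∀ m, rot (z m) = z (m + 1) := by
      intro m
      apply Subtype.ext
      show (e (m + 1), e (m + 2), e m) = (e (m + 1), e (m + 1 + 1), e (m + 1 + 2))
      have h1 : m + 1 + 1 = m + 2 := by revert m; decide
      have h2 : m + 1 + 2 = m := by revert m; decide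
      rw [h1, h2]
    have key : ∀ m, flip (z m) ∉ A := by
      intro m
      have h1 := hs m (play false (s m) (enc (node (i m) (e (m + 1)) (e (m + 2)))))
        (fun n hn => play_cons _ _ _ n hn)
      rw [Set.mem_preimage] at h1
      convert h1 using 2
      apply Subtype.ext
      have h2 : decT (i m) (fun n => play false (s m)
          (enc (node (i m) (e (m + 1)) (e (m + 2)))) (2 * n + 1)) =
          node (i m) (e (m + 1)) (e (m + 2)) := by
        have h3 : (fun n => play false (s m)
          (enc (node (i m) (e (m + 1)) (e (m + 2)))) (2 * n + 1)) =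
            enc (node (i m) (e (m + 1)) (e (m + 2))) := by
          funext n
          rw [play_opp _ _ _ _ (by simp)]
          congr 1; omega
        rw [h3]
        exact decT_enc (hN m)
      have h4 : decT (i m) (fun n => play false (s m)
          (enc (node (i m) (e (m + 1)) (e (m + 2)))) (2 * n)) = e m := (he3 m).symm
      show (node (e m []) (e (m + 1)) (e (m + 2)), sub false (e m), sub true (e m)) = _
      simp only [pt]
      rw [h2, h4, he2 m]
    refine ⟨flip (z 0), key 0, ?_, ?_⟩
    · unfold del
      rw [flip_flip, hz]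
      exact key _
    · unfold del
      rw [flip_flip, flip_flip, hz, hz]
      exact key _

end Pool.Agent.Helper64.BD
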