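import Pool.Agent.Helper64.BD.Unravel

set_option autoImplicit false

/-!
# Transfer of child functions for the player `false` (who moves at even lengths)
-/

namespace Pool.Agent.Helper64.BD

variable {T : GTree}

/-- The canonical quasi-strategy of the player `true` inside `S`. -/
def Rst (G S : Set T.Pos) (c : T.Pos) : Set T.Pos :=
  {q | q ∈ S ∧ T.len c ≤ T.len q ∧ T.anc (T.len c) q = c ∧
    ∀ j, T.len c ≤ j → j ≤ T.len q → ¬ CanReach false (G ∩ S) (T.anc j q)}

/-- The response of the player `false` at `p` of length `≥ k + 2`. -/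
noncomputable def respF (k : ℕ) (G S : Set T.Pos) (p : T.Pos) (e : Dat T → T.Pos) : T.Pos :=
  open Classical in
  if hm : ∃ m, k + 2 ≤ m ∧ m ≤ T.len p ∧ T.anc m p ∈ G ∩ S then
    e (S, true, Comp (T.anc (k + 2) p) (T.anc (Nat.find hm) p))
  else if hj : ∃ j, k + 2 ≤ j ∧ j ≤ T.len p ∧ CanReach false (G ∩ S) (T.anc j p) then
    (reachStrat false (G ∩ S) (T.anc (Nat.find hj) p)).s p
  else e (S, false, Rst G S (T.anc (k + 2) p))

theorem respF_child (k : ℕ) (G S : Set T.Pos) (p : T.Pos) (e : Dat T → T.Pos)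
    (he : ∀ d, IsChild (e d) p) : IsChild (respF k G S p e) p := by
  unfold respF
  split_ifs
  · exact he _
  · exact ⟨Strat.par _ _, Strat.len _ _⟩
  · exact he _

theorem find_eq_of {P : ℕ → Prop} [DecidablePred P] (h : ∃ n, P n) {m : ℕ} (hm : P m)
    (hmin : ∀ n, n < m → ¬ P n) : Nat.find h = m :=
  (Nat.find_eq_iff h).2 ⟨hm, hmin⟩

theorem respF_A {k : ℕ} {G S : Set T.Pos} (x : Branch T) {n m : ℕ} (hm : k + 2 ≤ m) (hmn : m ≤ n)
    (hx : x.x m ∈ G ∩ S) (hmin : ∀ j, k + 2 ≤ j → j < m → x.x j ∉ G ∩ S) (e : Dat T → T.Pos) :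
    respF k G S (x.x n) e = e (S, true, Comp (x.x (k + 2)) (x.x m)) := by
  classical
  have hP : k + 2 ≤ m ∧ m ≤ T.len (x.x n) ∧ T.anc m (x.x n) ∈ G ∩ S :=
    ⟨hm, by rw [x.len]; exact hmn, by rw [x.anc hmn]; exact hx⟩
  have hex : ∃ m, k + 2 ≤ m ∧ m ≤ T.len (x.x n) ∧ T.anc m (x.x n) ∈ G ∩ S := ⟨m, hP⟩
  unfold respF
  rw [dif_pos hex]
  have : Nat.find hex = m := find_eq_of hex hP (by
    rintro j hj ⟨h1, h2, h3⟩
    rw [x.anc (by omega)] at h3
    exact hmin j h1 hj h3)
  rw [x.anc (by omega : k + 2 ≤ n)]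
  congr 4
  convert x.anc hmn

theorem respF_R {k : ℕ} {G S : Set T.Pos} (x : Branch T) {n m : ℕ} (hm : k + 2 ≤ m) (hmn : m ≤ n)
    (hG : ∀ j, k + 2 ≤ j → x.x j ∉ G ∩ S)
    (hx : CanReach false (G ∩ S) (x.x m))
    (hmin : ∀ j, k + 2 ≤ j → j < m → ¬ CanReach false (G ∩ S) (x.x j)) (e : Dat T → T.Pos) :
    respF k G S (x.x n) e = (reachStrat false (G ∩ S) (x.x m)).s (x.x n) := by
  classical
  have hno : ¬ ∃ m, k + 2 ≤ m ∧ m ≤ T.len (x.x n) ∧ T.anc m (x.x n) ∈ G ∩ S := by
    rintro ⟨j, h1, h2, h3⟩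
    rw [x.len] at h2
    rw [x.anc h2] at h3
    exact hG j h1 h3
  have hP : k + 2 ≤ m ∧ m ≤ T.len (x.x n) ∧ CanReach false (G ∩ S) (T.anc m (x.x n)) :=
    ⟨hm, by rw [x.len]; exact hmn, by rw [x.anc hmn]; exact hx⟩
  have hex : ∃ m, k + 2 ≤ m ∧ m ≤ T.len (x.x n) ∧ CanReach false (G ∩ S) (T.anc m (x.x n)) :=
    ⟨m, hP⟩
  unfold respF
  rw [dif_neg hno, dif_pos hex]
  have : Nat.find hex = m := find_eq_of hex hP (by
    rintro j hj ⟨h1, h2, h3⟩
    rw [x.anc (by omega)] at h3
    exact hmin j h1 hj h3)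
  congr 2
  convert x.anc hmn

theorem respF_N {k : ℕ} {G S : Set T.Pos} (x : Branch T) {n : ℕ} (hn : k + 2 ≤ n)
    (hG : ∀ j, k + 2 ≤ j → x.x j ∉ G ∩ S)
    (hR : ∀ j, k + 2 ≤ j → ¬ CanReach false (G ∩ S) (x.x j)) (e : Dat T → T.Pos) :
    respF k G S (x.x n) e = e (S, false, Rst G S (x.x (k + 2))) := by
  classical
  have hno : ¬ ∃ m, k + 2 ≤ m ∧ m ≤ T.len (x.x n) ∧ T.anc m (x.x n) ∈ G ∩ S := by
    rintro ⟨j, h1, h2, h3⟩
    rw [x.len] at h2
    rw [x.anc h2] at h3
    exact hG j h1 h3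
  have hno' : ¬ ∃ m, k + 2 ≤ m ∧ m ≤ T.len (x.x n) ∧ CanReach false (G ∩ S) (T.anc m (x.x n)) := by
    rintro ⟨j, h1, h2, h3⟩
    rw [x.len] at h2
    rw [x.anc h2] at h3
    exact hR j h1 h3
  unfold respF
  rw [dif_neg hno, dif_neg hno', x.anc hn]

theorem Rst.qs2 {G S : Set T.Pos} {c0 c : T.Pos} (hS : QS1 c0 S) (hc : c ∈ S)
    (hcR : ¬ CanReach false (G ∩ S) c) (hlt : T.len c0 < T.len c) : QS2 G c S (Rst G S c) where
  sub := fun q hq => hq.1
  cl :=
    { mem := ⟨hc, le_rfl, GTree.anc_self _, fun j h1 h2 => by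
        obtain rfl : j = T.len c := by omega
        rw [GTree.anc_self]; exact hcR⟩
      par := by
        rintro q ⟨h1, h2, h3, h4⟩ hne
        refine ⟨hS.par q h1 (by omega), by rw [T.len_par]; omega, ?_, ?_⟩
        · rw [GTree.anc_par (by omega)]; exact h3
        · intro j hj1 hj2
          rw [T.len_par] at hj2
          rw [GTree.anc_par (by omega)]
          exact h4 j hj1 (by omega)
      ge := fun q hq => hq.2.1
      eq := by
        rintro q ⟨h1, h2, h3, h4⟩ he
        rw [← he, GTree.anc_self] at h3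
        exact h3
      child := by
        rintro q ⟨h1, h2, h3, h4⟩
        have hq : ¬ CanReach false (G ∩ S) q := by
          have := h4 (T.len q) h2 le_rfl
          rw [GTree.anc_self] at this
          exact this
        have main : ∃ r, IsChild r q ∧ r ∈ S ∧ ¬ CanReach false (G ∩ S) r := by
          by_cases hb : (T.len q).bodd = false
          · obtain ⟨r, hr, hrS⟩ := hS.own q h1
            exact ⟨r, hr, hrS, not_canReach_child hr.1 hr.2 hb hq⟩
          · obtain ⟨r, hr, hrl, hrR⟩ := exists_not_canReach hq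
            exact ⟨r, ⟨hr, hrl⟩, hS.opp q h1 (by simpa using hb) r ⟨hr, hrl⟩, hrR⟩
        obtain ⟨r, ⟨hr, hrl⟩, hrS, hrR⟩ := main
        refine ⟨r, ⟨hr, hrl⟩, hrS, by omega, by rw [GTree.anc_child hr hrl h2]; exact h3, ?_⟩
        intro j hj1 hj2
        by_cases hj : j ≤ T.len q
        · rw [GTree.anc_child hr hrl hj]; exact h4 j hj1 hj
        · rw [GTree.anc_of_le (by omega)]; exact hrR }
  opp := by
    rintro q ⟨h1, h2, h3, h4⟩ hb r ⟨hr, hrl⟩ hrS
    have hq : ¬ CanReach false (G ∩ S) q := by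
      have := h4 (T.len q) h2 le_rfl
      rw [GTree.anc_self] at this
      exact this
    refine ⟨hrS, by omega, by rw [GTree.anc_child hr hrl h2]; exact h3, ?_⟩
    intro j hj1 hj2
    by_cases hj : j ≤ T.len q
    · rw [GTree.anc_child hr hrl hj]; exact h4 j hj1 hj
    · rw [GTree.anc_of_le (by omega)]; exact not_canReach_child hr hrl hb hq
  avoid := by
    rintro q ⟨h1, h2, h3, h4⟩ hG
    have := h4 (T.len q) h2 le_rfl
    rw [GTree.anc_self] at this
    exact this (CanReach.of_mem ⟨hG, h1⟩)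

section

variable {k : ℕ} {hk : k.bodd = false} {G : Set T.Pos}

/-- The quasi-strategy proposed by `s` at `c`. -/
noncomputable def S1 (s : Strat (unr T k hk G)) (c : T.Pos) : Set T.Pos :=
  open Classical in if h : Valid k G c d0 then (s.s ⟨(c, d0), h⟩).1.2.1 else ∅

/-- The transfer for the player `false`. -/
noncomputable def φF (s : Strat (unr T k hk G)) : Strat T where
  s := fun p => if T.len p ≤ k then ev s p d0 else respF k G (S1 s (T.anc k p)) p (ev s p)
  par := by
    intro p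
    by_cases h : T.len p ≤ k
    · rw [if_pos h]; exact (ev_child s p _).1
    · rw [if_neg h]; exact (respF_child k G _ p _ (ev_child s p)).1
  len := by
    intro p
    by_cases h : T.len p ≤ k
    · rw [if_pos h]; exact (ev_child s p _).2
    · rw [if_neg h]; exact (respF_child k G _ p _ (ev_child s p)).2

theorem φF_low (s : Strat (unr T k hk G)) {p : T.Pos} (h : T.len p ≤ k) :
    (φF s).s p = ev s p d0 := if_pos h

theorem φF_high (s : Strat (unr T k hk G)) {p : T.Pos} (h : k < T.len p) :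
    (φF s).s p = respF k G (S1 s (T.anc k p)) p (ev s p) := if_neg (by omega)

theorem φF_lip (s t : Strat (unr T k hk G)) {n : ℕ}
    (h : ∀ p, (unr T k hk G).len p ≤ n → s.s p = t.s p) (q : T.Pos) (hq : T.len q ≤ n) :
    (φF s).s q = (φF t).s q := by
  by_cases hl : T.len q ≤ k
  · rw [φF_low s hl, φF_low t hl, ev_lip s t h q hq]
  · rw [φF_high s (by omega), φF_high t (by omega)]
    have h1 : ev s q = ev t q := funext fun d => ev_lip s t h q hq d
    have h2 : S1 s (T.anc k q) = S1 t (T.anc k q) := by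
      unfold S1
      by_cases hv : Valid k G (T.anc k q) d0
      · rw [dif_pos hv, dif_pos hv, h ⟨(T.anc k q, d0), hv⟩ (by
          show T.len (T.anc k q) ≤ n
          rw [GTree.len_anc (by omega)]; omega)]
      · rw [dif_neg hv, dif_neg hv]
    rw [h1, h2]

theorem φF_lift (s : Strat (unr T k hk G)) (x : Branch T) (hx : Cons false (φF s) 0 x) :
    ∃ y : Branch (unr T k hk G), Cons false s 0 y ∧ ∀ n, (y.x n).1.1 = x.x n := by
  have hlenk : T.len (x.x k) = k := x.len k
  have V0 : Valid k G (x.x k) d0 := Valid.low' (by omega)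
  -- the move at length `k`
  obtain ⟨S, hS, hz⟩ : ∃ S, QS1 (x.x (k + 1)) S ∧
      (s.s ⟨(x.x k, d0), V0⟩).1 = (x.x (k + 1), (S, false, ∅)) := by
    have h1 : x.x (k + 1) = (s.s ⟨(x.x k, d0), V0⟩).1.1 := by
      rw [hx k (Nat.zero_le _) hk, φF_low s (by omega), ev_valid s V0]
    have h2 := (s.s ⟨(x.x k, d0), V0⟩).2.mid (by rw [← h1, x.len])
    rw [← h1] at h2
    exact ⟨_, h2.1, Prod.ext h1.symm (Prod.ext rfl h2.2)⟩
  have hS1 : ∀ n, k ≤ n → S1 s (T.anc k (x.x n)) = S := by
    intro n hn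
    rw [x.anc hn]
    unfold S1
    rw [dif_pos V0, hz]
  have hbk1 : (k + 1).bodd = true := by rw [Nat.bodd_succ, hk]; rfl
  have hxS : x.x (k + 2) ∈ S := by
    refine hS.opp _ hS.mem (by rw [x.len]; exact hbk1) _ ⟨x.par (k + 1), ?_⟩
    rw [x.len, x.len]
  -- consistency at small lengths and at length `k`
  have hlow : ∀ n, n < k → n.bodd = false → ∀ hv : Valid k G (x.x n) d0,
      (s.s ⟨(x.x n, d0), hv⟩).1 = (x.x (n + 1), d0) := by
    intro n hn hb hv
    have hln : T.len (x.x n) < k := by rw [x.len]; exact hn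
    rw [s_low s hln, hx n (Nat.zero_le _) hb, φF_low s hln.le]
  by_cases hA : ∃ m, k + 2 ≤ m ∧ x.x m ∈ G ∩ S
  · -- the play reaches `G ∩ S`
    classical
    obtain ⟨m, hm, hxm, hmin⟩ : ∃ m, k + 2 ≤ m ∧ x.x m ∈ G ∩ S ∧
        ∀ j, k + 2 ≤ j → j < m → x.x j ∉ G ∩ S :=
      ⟨Nat.find hA, (Nat.find_spec hA).1, (Nat.find_spec hA).2, fun j h1 h2 h3 =>
        Nat.find_min hA h2 ⟨h1, h3⟩⟩
    have hL : Legal2 G (x.x (k + 2)) S true (Comp (x.x (k + 2)) (x.x m)) :=
      Or.inl ⟨rfl, x.x m, hxm.2, hxm.1, by rw [x.len, x.len]; exact hm,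
        by rw [x.len]; exact x.anc hm, rfl⟩
    have hR : ∀ n, k + 2 ≤ n → x.x n ∈ Comp (x.x (k + 2)) (x.x m) := by
      intro n hn
      refine ⟨by rw [x.len, x.len]; exact hn, ?_⟩
      rcases le_total n m with h | h
      · left; rw [x.len, x.len]; exact ⟨h, x.anc h⟩
      · right; rw [x.len, x.len]; exact ⟨h, x.anc h⟩
    refine ⟨liftB x S true _ hS hL hR, ?_, fun n => rfl⟩
    intro n _ hb
    apply Subtype.ext
    rcases lt_trichotomy n k with h | h | h
    · have h1 := hlow n h hb (Valid.low' (by rw [x.len]; omega))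
      simp only [liftB, if_pos (show n + 1 ≤ k by omega), if_pos (show n ≤ k by omega)]
      exact h1.symm
    · subst h
      simp only [liftB, if_neg (show ¬ n + 1 ≤ n by omega), if_true, le_refl]
      exact hz.symm
    · have hnk : n ≠ k + 1 := by
        rintro rfl
        rw [hbk1] at hb; exact absurd hb (by decide)
      have hv : Valid k G (x.x n) (S, true, Comp (x.x (k + 2)) (x.x m)) :=
        Valid.high' (by rw [x.len]; omega) (by rw [x.anc (by omega)]; exact hS)
          (by rw [x.anc (by omega)]; exact hL) (hR n (by omega))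
      have h3 := s_high s hv (by rw [x.len]; omega)
      simp only [liftB, if_neg (show ¬ n + 1 ≤ k by omega), if_neg (show ¬ n ≤ k by omega),
        if_neg (show n + 1 ≠ k + 1 by omega), if_neg hnk]
      rw [h3]
      refine Prod.ext ?_ rfl
      show x.x (n + 1) = ev s (x.x n) _
      rcases le_or_gt m n with hmn | hmn
      · rw [hx n (Nat.zero_le _) hb, φF_high s (by rw [x.len]; omega), hS1 n (by omega),
          respF_A x hm hmn hxm hmin]
      · have h4 := ev_mem s hv (by rw [x.len]; omega)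
        have h5 : T.len (ev s (x.x n) (S, true, Comp (x.x (k + 2)) (x.x m))) = n + 1 := by
          rw [(ev_child s (x.x n) _).2, x.len]
        have h6 := Comp.unique h4 (by rw [h5, x.len]; omega)
        rw [h5, x.anc (by omega)] at h6
        exact h6
  · -- the play never reaches `G ∩ S`
    have hG : ∀ j, k + 2 ≤ j → x.x j ∉ G ∩ S := fun j h1 h2 => hA ⟨j, h1, h2⟩
    have hR' : ∀ j, k + 2 ≤ j → ¬ CanReach false (G ∩ S) (x.x j) := by
      intro j0 hj0 hcr
      classical
      have hB : ∃ j, k + 2 ≤ j ∧ CanReach false (G ∩ S) (x.x j) := ⟨j0, hj0, hcr⟩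
      obtain ⟨m, hm, hxm, hmin⟩ : ∃ m, k + 2 ≤ m ∧ CanReach false (G ∩ S) (x.x m) ∧
          ∀ j, k + 2 ≤ j → j < m → ¬ CanReach false (G ∩ S) (x.x j) :=
        ⟨Nat.find hB, (Nat.find_spec hB).1, (Nat.find_spec hB).2, fun j h1 h2 h3 =>
          Nat.find_min hB h2 ⟨h1, h3⟩⟩
      obtain ⟨n, hn, hnG⟩ := reachStrat_spec hxm x (by rw [x.len]) (by
        intro n hn hb
        rw [x.len] at hn
        rw [hx n (Nat.zero_le _) hb, φF_high s (by rw [x.len]; omega), hS1 n (by omega),
          respF_R x hm hn hG hxm hmin])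
      rw [x.len] at hn
      exact hG n (by omega) hnG
    have hQ2 : QS2 G (x.x (k + 2)) S (Rst G S (x.x (k + 2))) :=
      Rst.qs2 hS hxS (hR' _ le_rfl) (by rw [x.len, x.len]; omega)
    have hL : Legal2 G (x.x (k + 2)) S false (Rst G S (x.x (k + 2))) := Or.inr ⟨rfl, hQ2⟩
    have hval : ∀ n, k + 2 ≤ n → x.x n ∈ Rst G S (x.x (k + 2)) →
        Valid k G (x.x n) (S, false, Rst G S (x.x (k + 2))) := fun n hn hmem =>
      Valid.high' (by rw [x.len]; omega) (by rw [x.anc (by omega)]; exact hS)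
          (by rw [x.anc (by omega)]; exact hL) hmem
    have hstep : ∀ n, k + 2 ≤ n → n.bodd = false →
        x.x (n + 1) = ev s (x.x n) (S, false, Rst G S (x.x (k + 2))) := by
      intro n hn hb
      rw [hx n (Nat.zero_le _) hb, φF_high s (by rw [x.len]; omega), hS1 n (by omega),
          respF_N x hn hG hR']
    have hR : ∀ n, k + 2 ≤ n → x.x n ∈ Rst G S (x.x (k + 2)) := by
      intro n hn
      obtain ⟨l, rfl⟩ := Nat.exists_eq_add_of_le hn
      clear hn
      induction l with
      | zero => exact hQ2.cl.mem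
      | succ l ih =>
        by_cases hb : (k + 2 + l).bodd = false
        · have h1 := hstep (k + 2 + l) (by omega) hb
          rw [show k + 2 + (l + 1) = k + 2 + l + 1 by omega, h1]
          exact ev_mem s (hval _ (by omega) ih) (by rw [x.len]; omega)
        · have hch : IsChild (x.x (k + 2 + l + 1)) (x.x (k + 2 + l)) :=
            ⟨x.par _, by rw [x.len, x.len]⟩
          have h1 : x.x (k + 2 + l + 1) ∈ S :=
            hS.opp _ ih.1 (by rw [x.len]; simpa using hb) _ hch
          refine ⟨h1, by rw [x.len, x.len]; omega, by rw [x.len]; exact x.anc (by omega), ?_⟩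
          intro j hj1 hj2
          rw [x.len] at hj1 hj2
          rw [x.anc (by omega)]
          exact hR' j hj1
    refine ⟨liftB x S false _ hS hL hR, ?_, fun n => rfl⟩
    intro n _ hb
    apply Subtype.ext
    rcases lt_trichotomy n k with h | h | h
    · have h1 := hlow n h hb (Valid.low' (by rw [x.len]; omega))
      simp only [liftB, if_pos (show n + 1 ≤ k by omega), if_pos (show n ≤ k by omega)]
      exact h1.symm
    · subst h
      simp only [liftB, if_neg (show ¬ n + 1 ≤ n by omega), if_true, le_refl]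
      exact hz.symm
    · have hnk : n ≠ k + 1 := by
        rintro rfl
        rw [hbk1] at hb; exact absurd hb (by decide)
      have hv := hval n (by omega) (hR n (by omega))
      have h3 := s_high s hv (by rw [x.len]; omega)
      simp only [liftB, if_neg (show ¬ n + 1 ≤ k by omega), if_neg (show ¬ n ≤ k by omega),
        if_neg (show n + 1 ≠ k + 1 by omega), if_neg hnk]
      rw [h3]
      exact Prod.ext (hstep n (by omega) hb) rfl

end

end Pool.Agent.Helper64.BD
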