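import Pool.Agent.Helper64.BD.PlayerF

set_option autoImplicit false

/-!
# Transfer of child functions for the player `true` (who moves at odd lengths)
-/

namespace Pool.Agent.Helper64.BD

variable {T : GTree}

/-- The canonical quasi-strategy of the player `false` above `c` avoiding `W`. -/
def Sst (W : Set T.Pos) (c : T.Pos) : Set T.Pos :=
  {q | T.len c ≤ T.len q ∧ T.anc (T.len c) q = c ∧
    ∀ j, T.len c ≤ j → j ≤ T.len q → ¬ CanReach true W (T.anc j q)}

theorem Sst.qs1 {W : Set T.Pos} {c : T.Pos} (hcR : ¬ CanReach true W c) : QS1 c (Sst W c) where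
  mem := ⟨le_rfl, GTree.anc_self _, fun j h1 h2 => by
    obtain rfl : j = T.len c := by omega
    rw [GTree.anc_self]; exact hcR⟩
  par := by
    rintro q ⟨h2, h3, h4⟩ hne
    refine ⟨by rw [T.len_par]; omega, ?_, ?_⟩
    · rw [GTree.anc_par (by omega)]; exact h3
    · intro j hj1 hj2
      rw [T.len_par] at hj2
      rw [GTree.anc_par (by omega)]
      exact h4 j hj1 (by omega)
  ge := fun q hq => hq.1
  eq := by
    rintro q ⟨h2, h3, h4⟩ he
    rw [← he, GTree.anc_self] at h3
    exact h3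
  opp := by
    rintro q ⟨h2, h3, h4⟩ hb r ⟨hr, hrl⟩
    have hq : ¬ CanReach true W q := by
      have := h4 (T.len q) h2 le_rfl
      rw [GTree.anc_self] at this
      exact this
    refine ⟨by omega, by rw [GTree.anc_child hr hrl h2]; exact h3, ?_⟩
    intro j hj1 hj2
    by_cases hj : j ≤ T.len q
    · rw [GTree.anc_child hr hrl hj]; exact h4 j hj1 hj
    · rw [GTree.anc_of_le (by omega)]; exact not_canReach_child hr hrl hb hq
  own := by
    rintro q ⟨h2, h3, h4⟩
    have hq : ¬ CanReach true W q := by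
      have := h4 (T.len q) h2 le_rfl
      rw [GTree.anc_self] at this
      exact this
    obtain ⟨r, hr, hrl, hrR⟩ := exists_not_canReach hq
    refine ⟨r, ⟨hr, hrl⟩, by omega, by rw [GTree.anc_child hr hrl h2]; exact h3, ?_⟩
    intro j hj1 hj2
    by_cases hj : j ≤ T.len q
    · rw [GTree.anc_child hr hrl hj]; exact h4 j hj1 hj
    · rw [GTree.anc_of_le (by omega)]; exact hrR

/-- The response of the player `true` at `p` of length `≥ k + 1`. -/
noncomputable def respT (k : ℕ) (W : Set T.Pos) (Sig : T.Pos → Set T.Pos)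
    (dd : Dat T) (p : T.Pos) (e : Dat T → T.Pos) : T.Pos :=
  open Classical in
  if hm : ∃ m, k + 2 ≤ m ∧ m ≤ T.len p ∧ T.anc m p ∈ W then
    e (Sig (T.anc (Nat.find hm) p), true, Comp (T.anc (k + 2) p) (T.anc (Nat.find hm) p))
  else if hj : ∃ j, k + 1 ≤ j ∧ j ≤ T.len p ∧ CanReach true W (T.anc j p) then
    (reachStrat true W (T.anc (Nat.find hj) p)).s p
  else if T.len p = k + 1 then e (Sst W p, false, ∅)
  else e dd

theorem respT_child (k : ℕ) (W : Set T.Pos) (Sig : T.Pos → Set T.Pos)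
    (dd : Dat T) (p : T.Pos) (e : Dat T → T.Pos)
    (he : ∀ d, IsChild (e d) p) : IsChild (respT k W Sig dd p e) p := by
  unfold respT
  split_ifs
  · exact he _
  · exact ⟨Strat.par _ _, Strat.len _ _⟩
  · exact he _
  · exact he _

theorem respT_A {k : ℕ} {W : Set T.Pos} {Sig : T.Pos → Set T.Pos} {dd : Dat T}
    (x : Branch T) {n m : ℕ} (hm : k + 2 ≤ m) (hmn : m ≤ n)
    (hx : x.x m ∈ W) (hmin : ∀ j, k + 2 ≤ j → j < m → x.x j ∉ W) (e : Dat T → T.Pos) :
    respT k W Sig dd (x.x n) e = e (Sig (x.x m), true, Comp (x.x (k + 2)) (x.x m)) := by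
  classical
  have hP : k + 2 ≤ m ∧ m ≤ T.len (x.x n) ∧ T.anc m (x.x n) ∈ W :=
    ⟨hm, by rw [x.len]; exact hmn, by rw [x.anc hmn]; exact hx⟩
  have hex : ∃ m, k + 2 ≤ m ∧ m ≤ T.len (x.x n) ∧ T.anc m (x.x n) ∈ W := ⟨m, hP⟩
  unfold respT
  rw [dif_pos hex]
  have hf : Nat.find hex = m := find_eq_of hex hP (by
    rintro j hj ⟨h1, h2, h3⟩
    rw [x.anc (by omega)] at h3
    exact hmin j h1 hj h3)
  have hf2 : T.anc (Nat.find hex) (x.x n) = x.x m := by rw [hf, x.anc hmn]
  have hf3 : T.anc (k + 2) (x.x n) = x.x (k + 2) := x.anc (by omega)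
  rw [hf3]
  convert rfl using 3
  · convert congrArg Sig hf2.symm
  · convert congrArg (fun z => (true, Comp (x.x (k + 2)) z)) hf2.symm

theorem respT_R {k : ℕ} {W : Set T.Pos} {Sig : T.Pos → Set T.Pos} {dd : Dat T}
    (x : Branch T) {n m : ℕ} (hm : k + 1 ≤ m) (hmn : m ≤ n)
    (hG : ∀ j, k + 2 ≤ j → x.x j ∉ W)
    (hx : CanReach true W (x.x m))
    (hmin : ∀ j, k + 1 ≤ j → j < m → ¬ CanReach true W (x.x j)) (e : Dat T → T.Pos) :
    respT k W Sig dd (x.x n) e = (reachStrat true W (x.x m)).s (x.x n) := by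
  classical
  have hno : ¬ ∃ m, k + 2 ≤ m ∧ m ≤ T.len (x.x n) ∧ T.anc m (x.x n) ∈ W := by
    rintro ⟨j, h1, h2, h3⟩
    rw [x.len] at h2
    rw [x.anc h2] at h3
    exact hG j h1 h3
  have hP : k + 1 ≤ m ∧ m ≤ T.len (x.x n) ∧ CanReach true W (T.anc m (x.x n)) :=
    ⟨hm, by rw [x.len]; exact hmn, by rw [x.anc hmn]; exact hx⟩
  have hex : ∃ m, k + 1 ≤ m ∧ m ≤ T.len (x.x n) ∧ CanReach true W (T.anc m (x.x n)) :=
    ⟨m, hP⟩
  unfold respT
  rw [dif_neg hno, dif_pos hex]
  have : Nat.find hex = m := find_eq_of hex hP (by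
    rintro j hj ⟨h1, h2, h3⟩
    rw [x.anc (by omega)] at h3
    exact hmin j h1 hj h3)
  congr 2
  convert x.anc hmn

theorem respT_N {k : ℕ} {W : Set T.Pos} {Sig : T.Pos → Set T.Pos} {dd : Dat T}
    (x : Branch T) {n : ℕ}
    (hG : ∀ j, k + 2 ≤ j → x.x j ∉ W)
    (hR : ∀ j, k + 1 ≤ j → ¬ CanReach true W (x.x j)) (e : Dat T → T.Pos) :
    respT k W Sig dd (x.x n) e = if n = k + 1 then e (Sst W (x.x n), false, ∅) else e dd := by
  classical
  have hno : ¬ ∃ m, k + 2 ≤ m ∧ m ≤ T.len (x.x n) ∧ T.anc m (x.x n) ∈ W := by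
    rintro ⟨j, h1, h2, h3⟩
    rw [x.len] at h2
    rw [x.anc h2] at h3
    exact hG j h1 h3
  have hno' : ¬ ∃ m, k + 1 ≤ m ∧ m ≤ T.len (x.x n) ∧ CanReach true W (T.anc m (x.x n)) := by
    rintro ⟨j, h1, h2, h3⟩
    rw [x.len] at h2
    rw [x.anc h2] at h3
    exact hR j h1 h3
  unfold respT
  rw [dif_neg hno, dif_neg hno', x.len]

section

variable {k : ℕ} {hk : k.bodd = false} {G : Set T.Pos}

/-- `s` answers the quasi-strategy `S` at `c` by the position `u`. -/
def Ans (s : Strat (unr T k hk G)) (c : T.Pos) (S : Set T.Pos) (u : T.Pos) : Prop :=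
  ∃ h : Valid k G c (S, false, ∅), (s.s ⟨(c, (S, false, ∅)), h⟩).1 =
    (T.anc (k + 2) u, (S, true, Comp (T.anc (k + 2) u) u)) ∧ u ∈ S ∧ u ∈ G ∧ k + 2 ≤ T.len u

/-- The positions with which `s` may answer. -/
def Wset (s : Strat (unr T k hk G)) (c : T.Pos) : Set T.Pos := {u | ∃ S, Ans s c S u}

/-- A choice of a quasi-strategy answered by `u`. -/
noncomputable def Sig (s : Strat (unr T k hk G)) (c u : T.Pos) : Set T.Pos :=
  open Classical in if h : ∃ S, Ans s c S u then h.choose else ∅

theorem Sig_spec (s : Strat (unr T k hk G)) {c u : T.Pos} (h : u ∈ Wset s c) :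
    Ans s c (Sig s c u) u := by
  unfold Sig
  have h' : ∃ S, Ans s c S u := h
  rw [dif_pos h']
  exact h'.choose_spec

/-- The data after the answer to the canonical quasi-strategy. -/
noncomputable def DD (s : Strat (unr T k hk G)) (c : T.Pos) : Dat T :=
  open Classical in if h : Valid k G c (Sst (Wset s c) c, false, ∅) then
    (s.s ⟨(c, (Sst (Wset s c) c, false, ∅)), h⟩).1.2 else d0

/-- The transfer for the player `true`. -/
noncomputable def φT (s : Strat (unr T k hk G)) : Strat T where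
  s := fun p => if T.len p ≤ k then ev s p d0 else
    respT k (Wset s (T.anc (k + 1) p)) (Sig s (T.anc (k + 1) p)) (DD s (T.anc (k + 1) p)) p (ev s p)
  par := by
    intro p
    by_cases h : T.len p ≤ k
    · rw [if_pos h]; exact (ev_child s p _).1
    · rw [if_neg h]; exact (respT_child k _ _ _ p _ (ev_child s p)).1
  len := by
    intro p
    by_cases h : T.len p ≤ k
    · rw [if_pos h]; exact (ev_child s p _).2
    · rw [if_neg h]; exact (respT_child k _ _ _ p _ (ev_child s p)).2

theorem φT_low (s : Strat (unr T k hk G)) {p : T.Pos} (h : T.len p ≤ k) :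
    (φT s).s p = ev s p d0 := if_pos h

theorem φT_high (s : Strat (unr T k hk G)) {p : T.Pos} (h : k < T.len p) :
    (φT s).s p = respT k (Wset s (T.anc (k + 1) p)) (Sig s (T.anc (k + 1) p))
      (DD s (T.anc (k + 1) p)) p (ev s p) := if_neg (by omega)

theorem φT_lip (s t : Strat (unr T k hk G)) {n : ℕ}
    (h : ∀ p, (unr T k hk G).len p ≤ n → s.s p = t.s p) (q : T.Pos) (hq : T.len q ≤ n) :
    (φT s).s q = (φT t).s q := by
  by_cases hl : T.len q ≤ k
  · rw [φT_low s hl, φT_low t hl, ev_lip s t h q hq]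
  · rw [φT_high s (by omega), φT_high t (by omega)]
    have h1 : ev s q = ev t q := funext fun d => ev_lip s t h q hq d
    have hc : T.len (T.anc (k + 1) q) ≤ n := by rw [GTree.len_anc (by omega)]; omega
    generalize T.anc (k + 1) q = c at hc ⊢
    have h2 : ∀ S u, Ans s c S u ↔ Ans t c S u := by
      intro S u
      unfold Ans
      constructor
      · rintro ⟨hv, he, h3⟩
        exact ⟨hv, by rw [← h ⟨(c, (S, false, ∅)), hv⟩ hc]; exact he, h3⟩
      · rintro ⟨hv, he, h3⟩
        exact ⟨hv, by rw [h ⟨(c, (S, false, ∅)), hv⟩ hc]; exact he, h3⟩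
    have h2' : (fun u S => Ans s c S u) = fun u S => Ans t c S u := by
      funext u S; exact propext (h2 S u)
    have h3 : Wset s c = Wset t c := by
      ext u
      exact exists_congr fun S => h2 S u
    have h4 : Sig s c = Sig t c := by
      funext u
      classical
      have key : ∀ (P Q : Set T.Pos → Prop), P = Q →
          (if h : ∃ S, P S then h.choose else (∅ : Set T.Pos)) =
            (if h : ∃ S, Q S then h.choose else (∅ : Set T.Pos)) := by
        rintro P Q rfl; rfl
      unfold Sig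
      convert key _ _ (congrFun h2' u)
    have h5 : DD s c = DD t c := by
      unfold DD
      rw [h3]
      by_cases hv : Valid k G c (Sst (Wset t c) c, false, ∅)
      · rw [dif_pos hv, dif_pos hv, h ⟨(c, (Sst (Wset t c) c, false, ∅)), hv⟩ hc]
      · rw [dif_neg hv, dif_neg hv]
    rw [h1, h3, h4, h5]

theorem φT_lift (s : Strat (unr T k hk G)) (x : Branch T) (hx : Cons true (φT s) 0 x) :
    ∃ y : Branch (unr T k hk G), Cons true s 0 y ∧ ∀ n, (y.x n).1.1 = x.x n := by
  have hbk1 : (k + 1).bodd = true := by rw [Nat.bodd_succ, hk]; rfl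
  have hc : ∀ n, k + 1 ≤ n → T.anc (k + 1) (x.x n) = x.x (k + 1) := fun n hn => x.anc hn
  have hlow : ∀ n, n < k → n.bodd = true → ∀ hv : Valid k G (x.x n) d0,
      (s.s ⟨(x.x n, d0), hv⟩).1 = (x.x (n + 1), d0) := by
    intro n hn hb hv
    have hln : T.len (x.x n) < k := by rw [x.len]; exact hn
    rw [s_low s hln, hx n (Nat.zero_le _) hb, φT_low s hln.le]
  have hhigh : ∀ n, k < n → n.bodd = true → x.x (n + 1) =
      respT k (Wset s (x.x (k + 1))) (Sig s (x.x (k + 1))) (DD s (x.x (k + 1))) (x.x n)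
        (ev s (x.x n)) := by
    intro n hn hb
    rw [hx n (Nat.zero_le _) hb, φT_high s (by rw [x.len]; omega), hc n (by omega)]
  set c := x.x (k + 1) with hcdef
  have hclen : T.len c = k + 1 := x.len _
  by_cases hA : ∃ m, k + 2 ≤ m ∧ x.x m ∈ Wset s c
  · -- the play reaches `Wset`
    classical
    obtain ⟨m, hm, hxm, hmin⟩ : ∃ m, k + 2 ≤ m ∧ x.x m ∈ Wset s c ∧
        ∀ j, k + 2 ≤ j → j < m → x.x j ∉ Wset s c :=
      ⟨Nat.find hA, (Nat.find_spec hA).1, (Nat.find_spec hA).2, fun j h1 h2 h3 =>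
        Nat.find_min hA h2 ⟨h1, h3⟩⟩
    obtain ⟨hv, he, huS, huG, _⟩ := Sig_spec s hxm
    set S := Sig s c (x.x m) with hSdef
    have hS : QS1 c S := (hv.mid hclen).1
    have hu2 : T.anc (k + 2) (x.x m) = x.x (k + 2) := x.anc hm
    rw [hu2] at he
    have hL : Legal2 G (x.x (k + 2)) S true (Comp (x.x (k + 2)) (x.x m)) :=
      Or.inl ⟨rfl, x.x m, huS, huG, by rw [x.len, x.len]; exact hm,
        by rw [x.len]; exact x.anc hm, rfl⟩
    have hR : ∀ n, k + 2 ≤ n → x.x n ∈ Comp (x.x (k + 2)) (x.x m) := by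
      intro n hn
      refine ⟨by rw [x.len, x.len]; exact hn, ?_⟩
      rcases le_total n m with h | h
      · left; rw [x.len, x.len]; exact ⟨h, x.anc h⟩
      · right; rw [x.len, x.len]; exact ⟨h, x.anc h⟩
    refine ⟨liftB x S true _ hS hL hR, ?_, fun n => rfl⟩
    intro n _ hb
    apply Subtype.ext
    rcases lt_trichotomy n (k + 1) with h | h | h
    · have hnk : n ≠ k := by
        rintro rfl
        rw [hk] at hb; exact absurd hb (by decide)
      have h1 := hlow n (by omega) hb (Valid.low' (by rw [x.len]; omega))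
      simp only [liftB, if_pos (show n + 1 ≤ k by omega), if_pos (show n ≤ k by omega)]
      exact h1.symm
    · subst h
      simp only [liftB, if_neg (show ¬ k + 1 + 1 ≤ k by omega), if_neg (show ¬ k + 1 ≤ k by omega),
        if_neg (show ¬ k + 1 + 1 = k + 1 by omega), if_true]
      exact he.symm
    · have hv' : Valid k G (x.x n) (S, true, Comp (x.x (k + 2)) (x.x m)) :=
        Valid.high' (by rw [x.len]; omega) (by rw [x.anc (by omega)]; exact hS)
          (by rw [x.anc (by omega)]; exact hL) (hR n (by omega))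
      have h3 := s_high s hv' (by rw [x.len]; omega)
      simp only [liftB, if_neg (show ¬ n + 1 ≤ k by omega), if_neg (show ¬ n ≤ k by omega),
        if_neg (show n + 1 ≠ k + 1 by omega), if_neg (show n ≠ k + 1 by omega)]
      rw [h3]
      refine Prod.ext ?_ rfl
      show x.x (n + 1) = ev s (x.x n) _
      rcases le_or_gt m n with hmn | hmn
      · rw [hhigh n (by omega) hb, respT_A x hm hmn hxm hmin]
      · have h4 := ev_mem s hv' (by rw [x.len]; omega)
        have h5 : T.len (ev s (x.x n) (S, true, Comp (x.x (k + 2)) (x.x m))) = n + 1 := by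
          rw [(ev_child s (x.x n) _).2, x.len]
        have h6 := Comp.unique h4 (by rw [h5, x.len]; omega)
        rw [h5, x.anc (by omega)] at h6
        exact h6
  · -- the play never reaches `Wset`
    have hG : ∀ j, k + 2 ≤ j → x.x j ∉ Wset s c := fun j h1 h2 => hA ⟨j, h1, h2⟩
    have hR' : ∀ j, k + 1 ≤ j → ¬ CanReach true (Wset s c) (x.x j) := by
      intro j0 hj0 hcr
      classical
      have hB : ∃ j, k + 1 ≤ j ∧ CanReach true (Wset s c) (x.x j) := ⟨j0, hj0, hcr⟩
      obtain ⟨m, hm, hxm, hmin⟩ : ∃ m, k + 1 ≤ m ∧ CanReach true (Wset s c) (x.x m) ∧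
          ∀ j, k + 1 ≤ j → j < m → ¬ CanReach true (Wset s c) (x.x j) :=
        ⟨Nat.find hB, (Nat.find_spec hB).1, (Nat.find_spec hB).2, fun j h1 h2 h3 =>
          Nat.find_min hB h2 ⟨h1, h3⟩⟩
      obtain ⟨n, hn, hnG⟩ := reachStrat_spec hxm x (by rw [x.len]) (by
        intro n hn hb
        rw [x.len] at hn
        rw [hhigh n (by omega) hb, respT_R x hm hn hG hxm hmin])
      rw [x.len] at hn
      obtain ⟨S', hS'⟩ := hnG
      have h5 := hS'.choose_spec.2.2.2
      rw [x.len] at h5
      exact hG n h5 ⟨S', hS'⟩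
    have hcR : ¬ CanReach true (Wset s c) c := hR' (k + 1) le_rfl
    set S := Sst (Wset s c) c with hSdef
    have hS : QS1 c S := Sst.qs1 hcR
    have hv : Valid k G c (S, false, ∅) := Valid.mid' hclen hS
    -- the answer of `s`
    have hDD : DD s c = (s.s ⟨(c, (S, false, ∅)), hv⟩).1.2 := by
      unfold DD
      exact dif_pos hv
    have hx2 : x.x (k + 2) = ev s c (S, false, ∅) := by
      have h1 := hhigh (k + 1) (by omega) hbk1
      rw [respT_N x hG hR', if_pos rfl] at h1
      exact h1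
    obtain ⟨f, R, hz, hL, hmemR⟩ : ∃ f R, (s.s ⟨(c, (S, false, ∅)), hv⟩).1 =
        (x.x (k + 2), (S, f, R)) ∧ Legal2 G (x.x (k + 2)) S f R ∧ x.x (k + 2) ∈ R := by
      have h1 : (s.s ⟨(c, (S, false, ∅)), hv⟩).1.1 = x.x (k + 2) := by
        rw [hx2, ev_valid s hv]
      have h2 := (s.s ⟨(c, (S, false, ∅)), hv⟩).2.high (by rw [h1, x.len])
      rw [h1] at h2
      have h3 := s_cut s hv
      rw [cut_mid (by omega)] at h3
      have h4 : (s.s ⟨(c, (S, false, ∅)), hv⟩).1.2.1 = S := congrArg (fun z => z.1) h3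
      rw [h4, x.anc le_rfl] at h2
      exact ⟨_, _, Prod.ext h1 (Prod.ext h4 rfl), h2.2.1, h2.2.2⟩
    have hQ2 : f = false ∧ QS2 G (x.x (k + 2)) S R := by
      rcases hL with ⟨hf, u, h1, h2, h3, h4, h5⟩ | h
      · exfalso
        rw [x.len] at h3 h4
        have hAns : Ans s c S u := ⟨hv, by rw [hz, h4, hf, h5], h1, h2, h3⟩
        have h6 := h1.2.2 (T.len u) (by omega) le_rfl
        rw [GTree.anc_self] at h6
        exact h6 (CanReach.of_mem ⟨S, hAns⟩)
      · exact h
    obtain ⟨rfl, hQ2⟩ := hQ2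
    have hDD' : DD s c = (S, false, R) := by rw [hDD, hz]
    have hval : ∀ n, k + 2 ≤ n → x.x n ∈ R → Valid k G (x.x n) (S, false, R) := fun n hn hmem =>
      Valid.high' (by rw [x.len]; omega) (by rw [x.anc (by omega)]; exact hS)
          (by rw [x.anc (by omega)]; exact hL) hmem
    have hstep : ∀ n, k + 2 ≤ n → n.bodd = true →
        x.x (n + 1) = ev s (x.x n) (S, false, R) := by
      intro n hn hb
      rw [hhigh n (by omega) hb, respT_N x hG hR', if_neg (by omega), hDD']
    have hR : ∀ n, k + 2 ≤ n → x.x n ∈ R := by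
      intro n hn
      obtain ⟨l, rfl⟩ := Nat.exists_eq_add_of_le hn
      clear hn
      induction l with
      | zero => exact hmemR
      | succ l ih =>
        by_cases hb : (k + 2 + l).bodd = true
        · have h1 := hstep (k + 2 + l) (by omega) hb
          rw [show k + 2 + (l + 1) = k + 2 + l + 1 by omega, h1]
          exact ev_mem s (hval _ (by omega) ih) (by rw [x.len]; omega)
        · have hch : IsChild (x.x (k + 2 + l + 1)) (x.x (k + 2 + l)) :=
            ⟨x.par _, by rw [x.len, x.len]⟩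
          have h1 : x.x (k + 2 + l + 1) ∈ S := by
            refine ⟨by rw [hclen, x.len]; omega, by rw [hclen]; exact x.anc (by omega), ?_⟩
            intro j hj1 hj2
            rw [x.len] at hj2
            rw [hclen] at hj1
            rw [x.anc (by omega)]
            exact hR' j hj1
          exact hQ2.opp _ ih (by rw [x.len]; simpa using hb) _ hch h1
    refine ⟨liftB x S false R hS hL hR, ?_, fun n => rfl⟩
    intro n _ hb
    apply Subtype.ext
    rcases lt_trichotomy n (k + 1) with h | h | h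
    · have hnk : n ≠ k := by
        rintro rfl
        rw [hk] at hb; exact absurd hb (by decide)
      have h1 := hlow n (by omega) hb (Valid.low' (by rw [x.len]; omega))
      simp only [liftB, if_pos (show n + 1 ≤ k by omega), if_pos (show n ≤ k by omega)]
      exact h1.symm
    · subst h
      simp only [liftB, if_neg (show ¬ k + 1 + 1 ≤ k by omega), if_neg (show ¬ k + 1 ≤ k by omega),
        if_neg (show ¬ k + 1 + 1 = k + 1 by omega), if_true]
      exact hz.symm
    · have hv' := hval n (by omega) (hR n (by omega))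
      have h3 := s_high s hv' (by rw [x.len]; omega)
      simp only [liftB, if_neg (show ¬ n + 1 ≤ k by omega), if_neg (show ¬ n ≤ k by omega),
        if_neg (show n + 1 ≠ k + 1 by omega), if_neg (show n ≠ k + 1 by omega)]
      rw [h3]
      exact Prod.ext (hstep n (by omega) hb) rfl

end

end Pool.Agent.Helper64.BD
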