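import Pool.Agent.Helper64.BD.Cover

set_option autoImplicit false

/-!
# Unravelling an open set by a covering
-/

namespace Pool.Agent.Helper64.BD

variable {T : GTree}

/-- `r` is a child of `q`. -/
def IsChild (r q : T.Pos) : Prop := T.par r = q ∧ T.len r = T.len q + 1

/-- Closed-under-parents sets above `c` without terminal positions. -/
structure Cl (c : T.Pos) (R : Set T.Pos) : Prop where
  mem : c ∈ R
  par : ∀ q ∈ R, T.len q ≠ T.len c → T.par q ∈ R
  ge : ∀ q ∈ R, T.len c ≤ T.len q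
  eq : ∀ q ∈ R, T.len q = T.len c → q = c
  child : ∀ q ∈ R, ∃ r, IsChild r q ∧ r ∈ R

/-- Quasi-strategies for the player `false` above `c`. -/
structure QS1 (c : T.Pos) (S : Set T.Pos) : Prop where
  mem : c ∈ S
  par : ∀ q ∈ S, T.len q ≠ T.len c → T.par q ∈ S
  ge : ∀ q ∈ S, T.len c ≤ T.len q
  eq : ∀ q ∈ S, T.len q = T.len c → q = c
  opp : ∀ q ∈ S, (T.len q).bodd = true → ∀ r, IsChild r q → r ∈ S
  own : ∀ q ∈ S, ∃ r, IsChild r q ∧ r ∈ S

/-- Quasi-strategies for the player `true` above `c`, inside `S` and avoiding `G`. -/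
structure QS2 (G : Set T.Pos) (c : T.Pos) (S R : Set T.Pos) : Prop where
  sub : R ⊆ S
  cl : Cl c R
  opp : ∀ q ∈ R, (T.len q).bodd = false → ∀ r, IsChild r q → r ∈ S → r ∈ R
  avoid : ∀ q ∈ R, q ∉ G

/-- The positions above `c` comparable with `u`. -/
def Comp (c u : T.Pos) : Set T.Pos :=
  {q | T.len c ≤ T.len q ∧ ((T.len q ≤ T.len u ∧ T.anc (T.len q) u = q) ∨
    (T.len u ≤ T.len q ∧ T.anc (T.len u) q = u))}

theorem Comp.cl {c u : T.Pos} (h : T.len c ≤ T.len u) (hc : T.anc (T.len c) u = c) :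
    Cl c (Comp c u) where
  mem := ⟨le_rfl, Or.inl ⟨h, hc⟩⟩
  par := by
    rintro q ⟨h1, h2⟩ hne
    have hlt : T.len c < T.len q := lt_of_le_of_ne h1 (Ne.symm hne)
    have hp : T.len (T.par q) = T.len q - 1 := T.len_par q
    have case1 : T.len q ≤ T.len u → T.anc (T.len q) u = q → T.par q ∈ Comp c u := by
      intro h3 h4
      refine ⟨by omega, Or.inl ⟨by omega, ?_⟩⟩
      have h5 : T.len (T.par q) + 1 = T.len q := by omega
      rw [← h4] at h5 ⊢
      have h6 : T.len (T.anc (T.len q) u) = T.len q := GTree.len_anc h3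
      rw [h6] at h5
      rw [← h5]
      have h7 : T.par (T.anc (T.len (T.par (T.anc (T.len q) u)) + 1) u)
        = T.anc (T.len (T.par (T.anc (T.len q) u))) u := GTree.par_anc (by omega)
      rw [h5] at h7 ⊢
      exact h7.symm
    rcases h2 with ⟨h3, h4⟩ | ⟨h3, h4⟩
    · exact case1 h3 h4
    · by_cases h5 : T.len u = T.len q
      · rw [GTree.anc_of_le (by omega)] at h4
        subst h4
        exact case1 le_rfl (GTree.anc_self _)
      · refine ⟨by omega, Or.inr ⟨by omega, ?_⟩⟩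
        rw [GTree.anc_par (by omega)]; exact h4
  ge := fun q hq => hq.1
  eq := by
    rintro q ⟨h1, h2⟩ he
    rcases h2 with ⟨h3, h4⟩ | ⟨h3, h4⟩
    · rw [← h4, he, hc]
    · rw [GTree.anc_of_le (by omega)] at h4
      subst h4
      rw [← he, GTree.anc_self] at hc
      exact hc
  child := by
    rintro q ⟨h1, h2⟩
    by_cases hlt : T.len q < T.len u
    · rcases h2 with ⟨h3, h4⟩ | ⟨h3, h4⟩
      · refine ⟨T.anc (T.len q + 1) u, ⟨?_, ?_⟩, ?_, Or.inl ⟨?_, ?_⟩⟩
        · rw [GTree.par_anc (by omega), h4]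
        · rw [GTree.len_anc (by omega)]
        · rw [GTree.len_anc (by omega)]; omega
        · rw [GTree.len_anc (by omega)]; omega
        · rw [GTree.len_anc (by omega)]
      · omega
    · obtain ⟨r, hr, hrl⟩ := T.child q
      refine ⟨r, ⟨hr, hrl⟩, by omega, Or.inr ⟨by omega, ?_⟩⟩
      rw [GTree.anc_child hr hrl (by omega)]
      rcases h2 with ⟨h3, h4⟩ | ⟨h3, h4⟩
      · have : T.len u = T.len q := by omega
        rw [this, GTree.anc_self, ← h4, this.symm, GTree.anc_self]
      · exact h4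

theorem Comp.unique {c u q : T.Pos} (h : q ∈ Comp c u) (hq : T.len q ≤ T.len u) :
    T.anc (T.len q) u = q := by
  rcases h.2 with ⟨_, h4⟩ | ⟨h3, h4⟩
  · exact h4
  · rw [GTree.anc_of_le (by omega)] at h4
    subst h4
    exact GTree.anc_self _

/-- The legal second data. -/
def Legal2 (G : Set T.Pos) (c : T.Pos) (S : Set T.Pos) (f : Bool) (R : Set T.Pos) : Prop :=
  (f = true ∧ ∃ u, u ∈ S ∧ u ∈ G ∧ T.len c ≤ T.len u ∧ T.anc (T.len c) u = c ∧ R = Comp c u) ∨
  (f = false ∧ QS2 G c S R)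

theorem Legal2.cl {G : Set T.Pos} {c : T.Pos} {S : Set T.Pos} {f : Bool} {R : Set T.Pos}
    (h : Legal2 G c S f R) : Cl c R := by
  rcases h with ⟨_, u, _, _, h1, h2, rfl⟩ | ⟨_, h⟩
  · exact Comp.cl h1 h2
  · exact h.cl

/-- Auxiliary data attached to positions. -/
abbrev Dat (T : GTree) : Type := Set T.Pos × Bool × Set T.Pos

/-- The trivial data. -/
def d0 : Dat T := (∅, false, ∅)

/-- The validity of the data `d` at the position `p`. -/
structure Valid (k : ℕ) (G : Set T.Pos) (p : T.Pos) (d : Dat T) : Prop where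
  low : T.len p ≤ k → d = d0
  mid : T.len p = k + 1 → QS1 p d.1 ∧ d.2 = (false, ∅)
  high : k + 2 ≤ T.len p → QS1 (T.anc (k + 1) p) d.1 ∧
    Legal2 G (T.anc (k + 2) p) d.1 d.2.1 d.2.2 ∧ p ∈ d.2.2

/-- Forgetting data when passing from a position of length `n` to its parent. -/
def cut (k n : ℕ) (d : Dat T) : Dat T :=
  if n ≤ k + 1 then d0 else if n = k + 2 then (d.1, false, ∅) else d

theorem cut_low {k n : ℕ} {d : Dat T} (h : n ≤ k + 1) : cut k n d = d0 := if_pos h
theorem cut_mid {k n : ℕ} {d : Dat T} (h : n = k + 2) : cut k n d = (d.1, false, ∅) := by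
  unfold cut; rw [if_neg (by omega), if_pos h]
theorem cut_high {k n : ℕ} {d : Dat T} (h : k + 3 ≤ n) : cut k n d = d := by
  unfold cut; rw [if_neg (by omega), if_neg (by omega)]

theorem Valid.par {k : ℕ} {G : Set T.Pos} {p : T.Pos} {d : Dat T} (h : Valid k G p d) :
    Valid k G (T.par p) (cut k (T.len p) d) where
  low := by
    intro h1
    rw [T.len_par] at h1
    exact cut_low (by omega)
  mid := by
    intro h1
    rw [T.len_par] at h1
    rw [cut_mid (by omega)]
    obtain ⟨h2, h3, h4⟩ := h.high (by omega)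
    have : T.anc (k + 1) p = T.par p := by
      rw [← GTree.anc_par (by omega), GTree.anc_of_le (by rw [T.len_par]; omega)]
    rw [this] at h2
    exact ⟨h2, rfl⟩
  high := by
    intro h1
    rw [T.len_par] at h1
    rw [cut_high (by omega), GTree.anc_par (by omega), GTree.anc_par (by omega)]
    obtain ⟨h2, h3, h4⟩ := h.high (by omega)
    refine ⟨h2, h3, h3.cl.par p h4 ?_⟩
    rw [GTree.len_anc (by omega)]; omega

theorem Valid.low' {k : ℕ} {G : Set T.Pos} {p : T.Pos} (h : T.len p ≤ k) : Valid k G p d0 where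
  low := fun _ => rfl
  mid := fun h1 => by omega
  high := fun h1 => by omega

theorem Valid.mid' {k : ℕ} {G : Set T.Pos} {p : T.Pos} {S : Set T.Pos} (h : T.len p = k + 1)
    (hS : QS1 p S) : Valid k G p (S, false, ∅) where
  low := fun _ => by omega
  mid := fun _ => ⟨hS, rfl⟩
  high := fun h1 => by omega

theorem Valid.high' {k : ℕ} {G : Set T.Pos} {p : T.Pos} {S : Set T.Pos} {f : Bool}
    {R : Set T.Pos} (h : k + 2 ≤ T.len p)
    (hS : QS1 (T.anc (k + 1) p) S) (hL : Legal2 G (T.anc (k + 2) p) S f R) (hp : p ∈ R) :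
    Valid k G p (S, f, R) where
  low := fun _ => by omega
  mid := fun _ => by omega
  high := fun _ => ⟨hS, hL, hp⟩

/-- All positions above `c`. -/
theorem QS1.above (c : T.Pos) : QS1 c {q | T.len c ≤ T.len q ∧ T.anc (T.len c) q = c} where
  mem := ⟨le_rfl, GTree.anc_self _⟩
  par := by
    rintro q ⟨h1, h2⟩ hne
    refine ⟨by rw [T.len_par]; omega, ?_⟩
    rw [GTree.anc_par (by omega)]; exact h2
  ge := fun q hq => hq.1
  eq := by
    rintro q ⟨h1, h2⟩ he
    rw [← he, GTree.anc_self] at h2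
    exact h2
  opp := by
    rintro q ⟨h1, h2⟩ _ r ⟨hr, hrl⟩
    exact ⟨by omega, by rw [GTree.anc_child hr hrl h1]; exact h2⟩
  own := by
    rintro q ⟨h1, h2⟩
    obtain ⟨r, hr, hrl⟩ := T.child q
    exact ⟨r, ⟨hr, hrl⟩, by omega, by rw [GTree.anc_child hr hrl h1]; exact h2⟩

theorem exists_legal2 (k : ℕ) (hk : k.bodd = false) (G : Set T.Pos) {p : T.Pos}
    (hp : T.len p = k + 1) {S : Set T.Pos} (hS : QS1 p S) :
    ∃ q f R, IsChild q p ∧ Legal2 G q S f R := by
  obtain ⟨q, hq, hql⟩ := T.child p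
  have hqS : q ∈ S := hS.opp p hS.mem (by rw [hp, Nat.bodd_succ, hk]; rfl) q ⟨hq, hql⟩
  by_cases hu : ∃ u, u ∈ S ∧ u ∈ G ∧ T.len q ≤ T.len u ∧ T.anc (T.len q) u = q
  · obtain ⟨u, h1, h2, h3, h4⟩ := hu
    exact ⟨q, true, Comp q u, ⟨hq, hql⟩, Or.inl ⟨rfl, u, h1, h2, h3, h4, rfl⟩⟩
  · refine ⟨q, false, {r | r ∈ S ∧ T.len q ≤ T.len r ∧ T.anc (T.len q) r = q}, ⟨hq, hql⟩,
      Or.inr ⟨rfl, ?_⟩⟩
    refine ⟨fun r hr => hr.1, ⟨⟨hqS, le_rfl, GTree.anc_self _⟩, ?_, fun r hr => hr.2.1, ?_, ?_⟩,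
      ?_, ?_⟩
    · rintro r ⟨h1, h2, h3⟩ hne
      refine ⟨hS.par r h1 (by omega), by rw [T.len_par]; omega, ?_⟩
      rw [GTree.anc_par (by omega)]; exact h3
    · rintro r ⟨h1, h2, h3⟩ he
      rw [← he, GTree.anc_self] at h3
      exact h3
    · rintro r ⟨h1, h2, h3⟩
      obtain ⟨t, ⟨ht, htl⟩, htS⟩ := hS.own r h1
      exact ⟨t, ⟨ht, htl⟩, htS, by omega, by rw [GTree.anc_child ht htl h2]; exact h3⟩
    · rintro r ⟨h1, h2, h3⟩ _ t ⟨ht, htl⟩ htS
      exact ⟨htS, by omega, by rw [GTree.anc_child ht htl h2]; exact h3⟩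
    · rintro r ⟨h1, h2, h3⟩ hG
      exact hu ⟨r, h1, hG, h2, h3⟩

/-- The unravelling tree. -/
@[reducible] def unr (T : GTree) (k : ℕ) (hk : k.bodd = false) (G : Set T.Pos) : GTree where
  Pos := {z : T.Pos × Dat T // Valid k G z.1 z.2}
  len := fun z => T.len z.1.1
  par := fun z => ⟨(T.par z.1.1, cut k (T.len z.1.1) z.1.2), z.2.par⟩
  len_par := fun z => T.len_par _
  par_root := by
    rintro ⟨⟨p, d⟩, h⟩ h0
    apply Subtype.ext
    simp only at h0 ⊢
    have hd : d = d0 := h.low (by simp only; omega)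
    rw [T.par_root p h0, cut_low (by omega), hd]
  child := by
    rintro ⟨⟨p, d⟩, h⟩
    rcases lt_trichotomy (T.len p) k with hl | hl | hl
    · obtain ⟨q, hq, hql⟩ := T.child p
      refine ⟨⟨(q, d0), Valid.low' (by simp only; omega)⟩, ?_, hql⟩
      apply Subtype.ext
      have hd : d = d0 := h.low (by simp only; omega)
      simp only
      rw [hq, cut_low (by omega), hd]
    · obtain ⟨q, hq, hql⟩ := T.child p
      refine ⟨⟨(q, (_, false, ∅)), Valid.mid' (by simp only; omega) (QS1.above q)⟩, ?_, hql⟩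
      apply Subtype.ext
      have hd : d = d0 := h.low (by simp only; omega)
      simp only
      rw [hq, cut_low (by omega), hd]
    · by_cases hl' : T.len p = k + 1
      · obtain ⟨hS, hd⟩ := h.mid hl'
        obtain ⟨q, f, R, ⟨hq, hql⟩, hL⟩ := exists_legal2 k hk G hl' hS
        have hq1 : T.anc (k + 1) q = p := by
          rw [GTree.anc_child hq hql (by omega), GTree.anc_of_le (by omega)]
        have hq2 : T.anc (k + 2) q = q := GTree.anc_of_le (by omega)
        refine ⟨⟨(q, (d.1, f, R)), Valid.high' (by simp only; omega) ?_ ?_ ?_⟩, ?_, hql⟩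
        · simp only; rw [hq1]; exact hS
        · simp only; rw [hq2]; exact hL
        · exact hL.cl.mem
        · apply Subtype.ext
          simp only
          rw [hq, cut_mid (by omega)]
          simp only
          rw [← hd]
      · obtain ⟨h1, h2, h3⟩ := h.high (by simp only; omega)
        obtain ⟨r, ⟨hr, hrl⟩, hrR⟩ := h2.cl.child p h3
        refine ⟨⟨(r, (d.1, d.2.1, d.2.2)), Valid.high' (by simp only; omega) ?_ ?_ hrR⟩, ?_, hrl⟩
        · simp only; rw [GTree.anc_child hr hrl (by omega)]; exact h1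
        · simp only; rw [GTree.anc_child hr hrl (by omega)]; exact h2
        · apply Subtype.ext
          simp only
          rw [hr, cut_high (by omega)]

section

variable {k : ℕ} {hk : k.bodd = false} {G : Set T.Pos}

/-- The tree map forgetting the data. -/
def unrHom (T : GTree) (k : ℕ) (hk : k.bodd = false) (G : Set T.Pos) :
    Hom (unr T k hk G) T where
  f := fun z => z.1.1
  len := fun _ => rfl
  par := fun _ => rfl

/-- The move proposed by `s` at `p` with data `d`. -/
noncomputable def ev (s : Strat (unr T k hk G)) (p : T.Pos) (d : Dat T) : T.Pos :=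
  open Classical in if h : Valid k G p d then (s.s ⟨(p, d), h⟩).1.1 else (dflt T).s p

theorem ev_valid (s : Strat (unr T k hk G)) {p : T.Pos} {d : Dat T} (h : Valid k G p d) :
    ev s p d = (s.s ⟨(p, d), h⟩).1.1 := dif_pos h

theorem ev_child (s : Strat (unr T k hk G)) (p : T.Pos) (d : Dat T) : IsChild (ev s p d) p := by
  by_cases h : Valid k G p d
  · rw [ev_valid s h]
    exact ⟨congrArg (fun z => z.1.1) (s.par ⟨(p, d), h⟩), s.len ⟨(p, d), h⟩⟩
  · unfold ev
    rw [dif_neg h]
    exact ⟨(dflt T).par p, (dflt T).len p⟩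

theorem ev_lip (s t : Strat (unr T k hk G)) {n : ℕ}
    (h : ∀ p, (unr T k hk G).len p ≤ n → s.s p = t.s p) (p : T.Pos) (hp : T.len p ≤ n)
    (d : Dat T) : ev s p d = ev t p d := by
  unfold ev
  by_cases hv : Valid k G p d
  · rw [dif_pos hv, dif_pos hv, h ⟨(p, d), hv⟩ hp]
  · rw [dif_neg hv, dif_neg hv]

/-- The data after the move of `s`. -/
theorem s_cut (s : Strat (unr T k hk G)) {p : T.Pos} {d : Dat T} (h : Valid k G p d) :
    cut k (T.len p + 1) (s.s ⟨(p, d), h⟩).1.2 = d := by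
  have h1 := congrArg (fun z => z.1.2) (s.par ⟨(p, d), h⟩)
  have h2 : T.len (s.s ⟨(p, d), h⟩).1.1 = T.len p + 1 := s.len ⟨(p, d), h⟩
  simp only at h1
  rw [h2] at h1
  exact h1

theorem s_low (s : Strat (unr T k hk G)) {p : T.Pos} (h : T.len p < k) :
    (s.s ⟨(p, d0), Valid.low' h.le⟩).1 = (ev s p d0, d0) := by
  have h1 := s.len ⟨(p, d0), Valid.low' h.le⟩
  have h2 := (s.s ⟨(p, d0), Valid.low' h.le⟩).2.low (by
    have : T.len (s.s ⟨(p, d0), Valid.low' h.le⟩).1.1 = T.len p + 1 := h1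
    omega)
  rw [ev_valid s (Valid.low' h.le)]
  exact Prod.ext rfl h2

theorem s_high (s : Strat (unr T k hk G)) {p : T.Pos} {d : Dat T} (h : Valid k G p d)
    (hp : k + 2 ≤ T.len p) : (s.s ⟨(p, d), h⟩).1 = (ev s p d, d) := by
  have h1 := s_cut s h
  rw [cut_high (by omega)] at h1
  rw [ev_valid s h]
  exact Prod.ext rfl h1

theorem ev_mem (s : Strat (unr T k hk G)) {p : T.Pos} {S : Set T.Pos} {f : Bool} {R : Set T.Pos}
    (h : Valid k G p (S, f, R)) (hp : k + 2 ≤ T.len p) : ev s p (S, f, R) ∈ R := by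
  have h1 := (s.s ⟨(p, (S, f, R)), h⟩).2.high (by
    have h2 := s.len ⟨(p, (S, f, R)), h⟩
    have : T.len (s.s ⟨(p, (S, f, R)), h⟩).1.1 = T.len p + 1 := h2
    omega)
  rw [s_high s h hp] at h1
  exact h1.2.2

/-! ### Lifting a branch with constant data -/

/-- The branch of the unravelling tree over `x` with the given data. -/
def liftB (x : Branch T) (S : Set T.Pos) (f : Bool) (R : Set T.Pos)
    (hS : QS1 (x.x (k + 1)) S) (hL : Legal2 G (x.x (k + 2)) S f R)
    (hR : ∀ n, k + 2 ≤ n → x.x n ∈ R) : Branch (unr T k hk G) where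
  x := fun n => ⟨(x.x n, if n ≤ k then d0 else if n = k + 1 then (S, false, ∅) else (S, f, R)), by
    have hn := x.len n
    by_cases h1 : n ≤ k
    · rw [if_pos h1]
      exact Valid.low' (by simp only; omega)
    · rw [if_neg h1]
      by_cases h2 : n = k + 1
      · subst h2
        rw [if_pos rfl]
        exact Valid.mid' (by simp only; omega) hS
      · rw [if_neg h2]
        refine Valid.high' (by simp only; omega) ?_ ?_ (hR n (by omega))
        · simp only; rw [x.anc (by omega)]; exact hS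
        · simp only; rw [x.anc (by omega)]; exact hL⟩
  len := fun n => x.len n
  par := by
    intro n
    apply Subtype.ext
    simp only
    rw [x.par, x.len]
    refine Prod.ext rfl ?_
    simp only
    rcases lt_trichotomy n k with h | h | h
    · rw [cut_low (by omega), if_pos (by omega)]
    · rw [cut_low (by omega), if_pos (by omega)]
    · by_cases h' : n = k + 1
      · rw [cut_mid (by omega), if_neg (by omega), if_neg (by omega), if_neg (by omega), if_pos h']
      · rw [cut_high (by omega), if_neg (by omega), if_neg (by omega), if_neg (by omega),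
          if_neg h']

end

end Pool.Agent.Helper64.BD
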